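import Mathlib

set_option autoImplicit false

namespace Pool.Agent.Lib.MP_37ca1f_al

open Filter Set Cardinal

section Res

variable {G : Type} [Group G]

/-- A set and its complement both accumulate at every point, along left translates of a filter. -/
def Res (N : Filter G) : Prop :=
  ∃ A : Set G, ∀ g : G, (∃ᶠ y in N, g * y ∈ A) ∧ (∃ᶠ y in N, g * y ∉ A)

/-- The same inside a subgroup. -/
def ResOn (H : Subgroup G) (N : Filter G) : Prop :=
  ∃ A : Set G, ∀ g ∈ H, (∃ᶠ y in N, y ∈ H ∧ g * y ∈ A) ∧ (∃ᶠ y in N, y ∈ H ∧ g * y ∉ A)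

lemma Res.mono {N N' : Filter G} (h : N' ≤ N) (hr : Res N') : Res N := by
  obtain ⟨A, hA⟩ := hr
  exact ⟨A, fun g => ⟨(hA g).1.filter_mono h, (hA g).2.filter_mono h⟩⟩

lemma ResOn.res {H : Subgroup G} {N : Filter G} (hr : ResOn H N) : Res N := by
  obtain ⟨A, hA⟩ := hr
  refine ⟨{g | ((g : G ⧸ H).out)⁻¹ * g ∈ A}, fun g => ?_⟩
  have hg : ((g : G ⧸ H).out)⁻¹ * g ∈ H := by
    rw [← QuotientGroup.eq, QuotientGroup.out_eq']
  have key : ∀ y ∈ H, ((g * y : G) : G ⧸ H) = (g : G ⧸ H) := by
    intro y hy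
    rw [QuotientGroup.eq]
    simpa using hy
  constructor
  · refine (hA _ hg).1.mono ?_
    rintro y ⟨hy, hyA⟩
    show (((g * y : G) : G ⧸ H).out)⁻¹ * (g * y) ∈ A
    rw [key y hy, ← mul_assoc]
    exact hyA
  · refine (hA _ hg).2.mono ?_
    rintro y ⟨hy, hyA⟩
    show ¬ (((g * y : G) : G ⧸ H).out)⁻¹ * (g * y) ∈ A
    rw [key y hy, ← mul_assoc]
    exact hyA

lemma Res.dense [TopologicalSpace G] [IsTopologicalGroup G] (hr : Res (nhds (1 : G))) :
    ∃ A : Set G, Dense A ∧ Dense Aᶜ := by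
  obtain ⟨A, hA⟩ := hr
  have key : ∀ (B : Set G) (g : G), (∃ᶠ y in nhds (1 : G), g * y ∈ B) → g ∈ closure B := by
    intro B g h
    rw [mem_closure_iff_frequently, ← map_mul_left_nhds_one g, frequently_map]
    exact h
  exact ⟨A, fun g => key A g (hA g).1, fun g => key Aᶜ g (hA g).2⟩

/-- The part of the neighbourhood axioms that does not involve conjugation. -/
structure GF (N : Filter G) : Prop where
  one : ∀ V ∈ N, (1 : G) ∈ V
  mul : ∀ V ∈ N, ∃ W ∈ N, ∀ x ∈ W, ∀ y ∈ W, x * y ∈ V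
  inv : ∀ V ∈ N, {x | x⁻¹ ∈ V} ∈ N

lemma gf_nhds [TopologicalSpace G] [IsTopologicalGroup G] : GF (nhds (1 : G)) where
  one := fun _ hV => mem_of_mem_nhds hV
  mul := fun V hV => by
    obtain ⟨W, hW, h⟩ := exists_nhds_one_split hV
    exact ⟨W, hW, fun x hx y hy => h x hx y hy⟩
  inv := fun V hV => inv_mem_nhds_one G hV

lemma GF.symm {N : Filter G} (h : GF N) {V : Set G} (hV : V ∈ N) :
    ∃ W ∈ N, W ⊆ V ∧ ∀ x ∈ W, x⁻¹ ∈ W := by
  refine ⟨V ∩ {x | x⁻¹ ∈ V}, inter_mem hV (h.inv V hV), inter_subset_left, ?_⟩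
  rintro x ⟨h1, h2⟩
  exact ⟨h2, by simpa using h1⟩

lemma GF.prod {N : Filter G} (h : GF N) (n : ℕ) {V : Set G} (hV : V ∈ N) :
    ∃ W ∈ N, ∀ l : List G, l.length ≤ n → (∀ x ∈ l, x ∈ W) → l.prod ∈ V := by
  induction n generalizing V with
  | zero =>
    refine ⟨V, hV, fun l hl _ => ?_⟩
    rw [Nat.le_zero, List.length_eq_zero_iff] at hl
    subst hl
    exact h.one V hV
  | succ n ih =>
    obtain ⟨W, hW, hWV⟩ := h.mul V hV
    obtain ⟨W', hW', hW'W⟩ := ih hW
    refine ⟨W ∩ W', inter_mem hW hW', fun l hl hlW => ?_⟩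
    cases l with
    | nil => exact h.one V hV
    | cons x l =>
      rw [List.prod_cons]
      refine hWV x (hlW x (by simp)).1 _ (hW'W l (by simpa using hl) ?_)
      exact fun y hy => (hlW y (by simp [hy])).2

end Res

section Closure

variable {α : Type}

/-- Closing a set under finitary many-valued operations does not increase its size much. -/
lemma exists_small_closed (T : Finset α → Set α) (c : Cardinal) (hc : ℵ₀ ≤ c)
    (hT : ∀ s, #(T s) ≤ c) (A : Set α) (hA : #A ≤ c) :
    ∃ K : Set α, A ⊆ K ∧ #K ≤ c ∧ ∀ s : Finset α, (↑s : Set α) ⊆ K → T s ⊆ K := by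
  classical
  let step : Set α → Set α := fun K => K ∪ ⋃ s : Finset K, T (s.map (Function.Embedding.subtype _))
  have hstep : ∀ K : Set α, #K ≤ c → #(step K) ≤ c := by
    intro K hK
    refine (mk_union_le _ _).trans ?_
    have h1 : #(Finset K) ≤ c := by
      rcases finite_or_infinite K with hf | hf
      · exact (mk_le_aleph0).trans hc
      · rw [mk_finset_of_infinite]; exact hK
    have h2 : #(⋃ s : Finset K, T (s.map (Function.Embedding.subtype _))) ≤ c := by
      refine (mk_iUnion_le _).trans ?_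
      have h3 : ⨆ s : Finset K, #(T (s.map (Function.Embedding.subtype _))) ≤ c :=
        ciSup_le' fun s => hT _
      calc _ ≤ c * c := mul_le_mul' h1 h3
        _ = c := mul_eq_self hc
    calc _ ≤ c + c := add_le_add hK h2
      _ = c := add_eq_self hc
  let K : ℕ → Set α := fun n => step^[n] A
  have hK : ∀ n, #(K n) ≤ c := by
    intro n
    induction n with
    | zero => exact hA
    | succ n ih =>
      show #(step^[n + 1] A) ≤ c
      rw [Function.iterate_succ_apply']
      exact hstep _ ih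
  have hsucc : ∀ n, K (n + 1) = step (K n) := fun n => Function.iterate_succ_apply' _ _ _
  have hmono : Monotone K := monotone_nat_of_le_succ fun n => by
    rw [hsucc]; exact subset_union_left
  refine ⟨⋃ n, K n, subset_iUnion K 0, ?_, ?_⟩
  · refine (mk_iUnion_le _).trans ?_
    have h3 : ⨆ n, #(K n) ≤ c := ciSup_le' hK
    calc _ ≤ c * c := mul_le_mul' (by simpa using hc) h3
      _ = c := mul_eq_self hc
  · intro s hs
    obtain ⟨n, hn⟩ : ∃ n, (↑s : Set α) ⊆ K n := by
      induction s using Finset.induction_on with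
      | empty => exact ⟨0, by simp⟩
      | insert a s _ ih =>
        rw [Finset.coe_insert, insert_subset_iff] at hs
        obtain ⟨n, hn⟩ := ih hs.2
        obtain ⟨m, hm⟩ := mem_iUnion.mp hs.1
        refine ⟨max n m, ?_⟩
        rw [Finset.coe_insert, insert_subset_iff]
        exact ⟨hmono (le_max_right _ _) hm, hn.trans (hmono (le_max_left _ _))⟩
    refine Subset.trans ?_ (subset_iUnion K (n + 1))
    rw [hsucc]
    refine Subset.trans ?_ subset_union_right
    have e : (s.subtype (· ∈ K n)).map (Function.Embedding.subtype _) = s :=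
      Finset.subtype_map_of_mem fun x hx => hn hx
    refine subset_iUnion_of_subset (s.subtype (· ∈ K n)) ?_
    rw [e]

/-- A rank function with small sublevel sets that respects given finitary operations. -/
lemma exists_rank (T : Finset α → Set α) (c : Cardinal) (hc : ℵ₀ ≤ c) (hcα : c < #α)
    (hT : ∀ s, #(T s) ≤ c) :
    ∃ μ : α → Ordinal.{0}, (∀ a, #{z | μ z ≤ μ a} < #α) ∧
      ∀ (s : Finset α) (a : α), (∀ z ∈ s, μ z ≤ μ a) → ∀ y ∈ T s, μ y ≤ μ a := by
  classical
  obtain ⟨_, _, hord⟩ := exists_ord_eq_type_lt α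
  let cl : α → Set α := fun a =>
    ⋂₀ {K : Set α | Iic a ⊆ K ∧ ∀ s : Finset α, (↑s : Set α) ⊆ K → T s ⊆ K}
  have hmono : ∀ a b, a ≤ b → cl a ⊆ cl b := by
    intro a b hab
    apply sInter_subset_sInter
    rintro K ⟨h1, h2⟩
    exact ⟨(Iic_subset_Iic.mpr hab).trans h1, h2⟩
  have hself : ∀ a, a ∈ cl a := fun a => mem_sInter.mpr fun K hK => hK.1 (mem_Iic.mpr le_rfl)
  have hclosed : ∀ a (s : Finset α), (↑s : Set α) ⊆ cl a → T s ⊆ cl a := by
    intro a s hs
    apply subset_sInter
    intro K hK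
    exact hK.2 s (hs.trans (sInter_subset_of_mem hK))
  have hsmall : ∀ a, #(cl a) < #α := by
    intro a
    have h1 : #(Iic a) < #α := by
      rw [← Iio_insert]
      refine (mk_insert_le).trans_lt ?_
      exact add_lt_of_lt (hc.trans hcα.le) (mk_Iio_lt a hord)
        ((one_lt_aleph0.trans_le hc).trans hcα)
    obtain ⟨K, hK1, hK2, hK3⟩ := exists_small_closed T (max c #(Iic a)) (hc.trans (le_max_left _ _))
      (fun s => (hT s).trans (le_max_left _ _)) (Iic a) (le_max_right _ _)
    have hsub : cl a ⊆ K := sInter_subset_of_mem (And.intro hK1 hK3)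
    refine (mk_le_mk_of_subset hsub).trans_lt ?_
    exact hK2.trans_lt (max_lt hcα h1)
  let m : α → α := fun y => wellFounded_lt.min {a | y ∈ cl a} ⟨y, hself y⟩
  have hm1 : ∀ y, y ∈ cl (m y) := fun y => wellFounded_lt.min_mem {a | y ∈ cl a} ⟨y, hself y⟩
  have hm2 : ∀ y a, y ∈ cl a → m y ≤ a := fun y a h =>
    wellFounded_lt.min_le (s := {a | y ∈ cl a}) h
  refine ⟨fun y => Ordinal.typein (α := α) (· < ·) (m y), ?_, ?_⟩
  · intro a
    refine lt_of_le_of_lt (mk_le_mk_of_subset ?_) (hsmall (m a))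
    intro z hz
    simp only [mem_ofPred_eq, Ordinal.typein_le_typein, not_lt] at hz
    exact hmono _ _ hz (hm1 z)
  · intro s a hs y hy
    simp only [Ordinal.typein_le_typein, not_lt] at hs ⊢
    apply hm2
    exact hclosed (m a) s (fun z hz => hmono _ _ (hs z hz) (hm1 z)) hy

/-- The three set lemma for an injective map. -/
lemma exists_three_colouring (R : α → α) (hR : Function.Injective R) :
    ∃ c : α → Fin 3, ∀ x, R x ≠ x → c (R x) ≠ c x := by
  classical
  obtain ⟨E, hE⟩ := zorn_subset {E : Set α | ∀ x ∈ E, R x ∉ E} (by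
    intro C hC hchain
    refine ⟨⋃₀ C, ?_, fun s hs => subset_sUnion_of_mem hs⟩
    rintro x ⟨s, hs, hxs⟩ ⟨t, ht, hxt⟩
    rcases hchain.total hs ht with h | h
    · exact hC ht x (h hxs) hxt
    · exact hC hs x hxs (h hxt))
  have hmax : ∀ x, R x ≠ x → x ∉ E → R x ∉ E → ∃ z ∈ E, R z = x := by
    intro x hx hxE hRx
    by_contra hcon
    push Not at hcon
    have hmem : insert x E ∈ {E : Set α | ∀ x ∈ E, R x ∉ E} := by
      rintro y (rfl | hy) (h | h)
      · exact hx h
      · exact hRx h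
      · exact hcon y hy h
      · exact hE.prop y hy h
    exact hxE (hE.le_of_ge hmem (subset_insert x E) (mem_insert x E))
  refine ⟨fun x => if x ∈ E then 0 else if R x ∈ E then 1 else 2, fun x hx => ?_⟩
  by_cases h1 : x ∈ E
  · have h2 : R x ∉ E := hE.prop x h1
    simp only [h1, h2, if_true, if_false]
    split_ifs <;> decide
  · by_cases h2 : R x ∈ E
    · simp only [h1, h2, if_true, if_false]
      decide
    · have h3 : R (R x) ∈ E := by
        by_contra h3
        obtain ⟨z, hz, hzx⟩ := hmax (R x) (fun h => hx (hR h)) h2 h3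
        exact h1 (hR hzx ▸ hz)
      simp only [h1, h2, h3, if_true, if_false]
      decide

end Closure

end Pool.Agent.Lib.MP_37ca1f_al
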