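import Mathlib
import Pool.Agent.Lib.MP_37ca1f_al.Basic

set_option autoImplicit false

namespace Pool.Agent.Lib.MP_37ca1f_al

open Filter Set Cardinal
open scoped symmDiff

lemma log_parity (a m : ℕ) (hm : 1 ≤ m) :
    ∃ i, i + 1 ≤ a + 2 ∧ Nat.log 2 (a + i * m) % 2 ≠ Nat.log 2 (a + (i + 1) * m) % 2 := by
  by_contra hcon
  push Not at hcon
  have hstep : ∀ i, 1 ≤ i → i ≤ a + 2 → Nat.log 2 (a + i * m) = Nat.log 2 (a + 1 * m) := by
    intro i hi
    induction i, hi using Nat.le_induction with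
    | base => intro _; rfl
    | succ i hi ih =>
      intro hle
      have h1 := hcon i hle
      have h2 : Nat.log 2 (a + i * m) ≤ Nat.log 2 (a + (i + 1) * m) :=
        Nat.log_mono_right (by nlinarith)
      have h3 : Nat.log 2 (a + (i + 1) * m) ≤ Nat.log 2 ((a + i * m) * 2) :=
        Nat.log_mono_right (by nlinarith)
      rw [Nat.log_mul_base (by norm_num) (by nlinarith)] at h3
      rw [← ih (by omega)]
      omega
  have h4 := hstep (a + 2) (by omega) le_rfl
  have h5 : Nat.log 2 ((a + 1 * m) * 2) ≤ Nat.log 2 (a + (a + 2) * m) :=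
    Nat.log_mono_right (by nlinarith)
  rw [Nat.log_mul_base (by norm_num) (by omega)] at h5
  omega

/-- A weak form of the sunflower lemma for infinite families of sets of the same size. -/
lemma exists_root {ι : Type} [DecidableEq ι] (Y : Set (Finset ι)) (n : ℕ) (hY : Y.Infinite)
    (hn : ∀ t ∈ Y, t.card = n) :
    ∃ R : Finset ι, R.card < n ∧ ∀ K : Finset ι, ∃ t ∈ Y, R ⊆ t ∧ Disjoint (t \ R) K := by
  classical
  let P : ℕ → Prop := fun k => ∃ R : Finset ι, R.card = k ∧ {t | t ∈ Y ∧ R ⊆ t}.Infinite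
  have hP0 : P 0 := ⟨∅, rfl, by simpa using hY⟩
  have hlt : ∀ k, P k → k < n := by
    rintro k ⟨R, rfl, hR⟩
    obtain ⟨t, ht, hne⟩ := hR.exists_notMem_finset {R}
    rw [← hn t ht.1]
    exact Finset.card_lt_card (Finset.ssubset_iff_subset_ne.mpr
      ⟨ht.2, fun e => hne (by simp [e])⟩)
  obtain ⟨R, hRk, hR⟩ : P (Nat.findGreatest P n) := Nat.findGreatest_spec (Nat.zero_le n) hP0
  refine ⟨R, hRk ▸ hlt _ ⟨R, hRk, hR⟩, fun K => ?_⟩
  have hfin : (⋃ ξ ∈ (K \ R : Finset ι), {t | t ∈ Y ∧ insert ξ R ⊆ t}).Finite := by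
    refine Finite.biUnion (K \ R).finite_toSet fun ξ hξ => ?_
    by_contra hinf
    have hξ' : ξ ∉ R := (Finset.mem_sdiff.mp hξ).2
    have hP : P (R.card + 1) := ⟨insert ξ R, Finset.card_insert_of_notMem hξ', hinf⟩
    have := Nat.le_findGreatest (hlt _ hP).le hP
    omega
  obtain ⟨t, ht, hnot⟩ := (hR.sdiff hfin).nonempty
  refine ⟨t, ht.1, ht.2, Finset.disjoint_left.mpr fun ξ hξ hξK => hnot ?_⟩
  rw [Finset.mem_sdiff] at hξ
  refine mem_biUnion (x := ξ) (Finset.mem_coe.mpr (Finset.mem_sdiff.mpr ⟨hξK, hξ.2⟩)) ⟨ht.1, ?_⟩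
  exact Finset.insert_subset hξ.1 ht.2

variable {G : Type} [Group G]

/-- Resolvability from a homomorphism to a Boolean group of finite sets with locally
uncountable image. -/
theorem res_of_support {ι : Type} [DecidableEq ι] {N : Filter G} (hN : GF N) (L : Subgroup G)
    (hL : (L : Set G) ∈ N) (s : G → Finset ι)
    (hs : ∀ x ∈ L, ∀ y ∈ L, s (x * y) = s x ∆ s y)
    (hunc : ∀ W ∈ N, ¬ (s '' W).Countable) : Res N := by
  apply ResOn.res (H := L)
  refine ⟨{x | Nat.log 2 (s x).card % 2 = 0}, fun g hg => ?_⟩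
  have hex : ∀ V ∈ N, ∃ y ∈ V, ∃ y' ∈ V, y ∈ L ∧ y' ∈ L ∧
      Nat.log 2 (s (g * y)).card % 2 ≠ Nat.log 2 (s (g * y')).card % 2 := by
    intro V hV
    obtain ⟨W₂, hW₂, hprod⟩ := hN.prod ((s g).card + 2) hV
    obtain ⟨W₁, hW₁, hmul⟩ := hN.mul W₂ hW₂
    obtain ⟨n, hn⟩ : ∃ n, {t | t ∈ s '' (W₁ ∩ L) ∧ t.card = n}.Infinite := by
      by_contra hcon
      push Not at hcon
      apply hunc _ (inter_mem hW₁ hL)
      have : s '' (W₁ ∩ L) = ⋃ n, {t | t ∈ s '' (W₁ ∩ L) ∧ t.card = n} := by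
        ext t; simp
      rw [this]
      exact countable_iUnion fun n => (hcon n).countable
    obtain ⟨R, hR, hroot⟩ := exists_root _ n hn (fun t ht => ht.2)
    have hpair : ∀ u : Finset ι, ∃ y ∈ W₂, y ∈ L ∧ (u ∆ s y).card = u.card + 2 * (n - R.card) := by
      intro u
      obtain ⟨t₁, ⟨⟨y₁, hy₁, rfl⟩, hc₁⟩, hR₁, hd₁⟩ := hroot u
      obtain ⟨t₂, ⟨⟨y₂, hy₂, rfl⟩, hc₂⟩, hR₂, hd₂⟩ := hroot (u ∪ s y₁)
      refine ⟨y₁ * y₂, hmul _ hy₁.1 _ hy₂.1, L.mul_mem hy₁.2 hy₂.2, ?_⟩
      rw [Finset.disjoint_union_right] at hd₂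
      have e : s (y₁ * y₂) = (s y₁ \ R) ∪ (s y₂ \ R) := by
        rw [hs _ hy₁.2 _ hy₂.2]
        ext ξ
        have a1 : ξ ∈ R → ξ ∈ s y₁ := fun h => hR₁ h
        have a2 : ξ ∈ R → ξ ∈ s y₂ := fun h => hR₂ h
        have a3 : ξ ∈ s y₂ \ R → ξ ∉ s y₁ := fun h => Finset.disjoint_left.mp hd₂.2 h
        simp only [Finset.mem_symmDiff, Finset.mem_union, Finset.mem_sdiff] at a3 ⊢
        tauto
      have hd3 : Disjoint (s y₁ \ R) (s y₂ \ R) :=
        (hd₂.2.mono_right Finset.sdiff_subset).symm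
      have hd4 : Disjoint u (s (y₁ * y₂)) := by
        rw [e, Finset.disjoint_union_right]
        exact ⟨hd₁.symm, hd₂.1.symm⟩
      rw [hd4.symmDiff_eq_sup, Finset.sup_eq_union, Finset.card_union_of_disjoint hd4, e,
        Finset.card_union_of_disjoint hd3, Finset.card_sdiff_of_subset hR₁,
        Finset.card_sdiff_of_subset hR₂, hc₁, hc₂]
      ring
    have hlist : ∀ i, ∃ l : List G, l.length = i ∧ (∀ x ∈ l, x ∈ W₂) ∧ l.prod ∈ L ∧
        (s (g * l.prod)).card = (s g).card + i * (2 * (n - R.card)) := by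
      intro i
      induction i with
      | zero => exact ⟨[], rfl, by simp, by simp [L.one_mem], by simp⟩
      | succ i ih =>
        obtain ⟨l, hl1, hl2, hl3, hl4⟩ := ih
        obtain ⟨y, hy1, hy2, hy3⟩ := hpair (s (g * l.prod))
        refine ⟨l ++ [y], by simp [hl1], ?_, ?_, ?_⟩
        · intro x hx
          rcases List.mem_append.mp hx with hx | hx
          · exact hl2 x hx
          · rw [List.mem_singleton.mp hx]; exact hy1
        · rw [List.prod_append, List.prod_singleton]; exact L.mul_mem hl3 hy2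
        · rw [List.prod_append, List.prod_singleton, ← mul_assoc,
            hs _ (L.mul_mem hg hl3) _ hy2, hy3, hl4]
          ring
    obtain ⟨i, hi, hne⟩ := log_parity (s g).card (2 * (n - R.card)) (by omega)
    obtain ⟨l, hl1, hl2, hl3, hl4⟩ := hlist i
    obtain ⟨l', hl1', hl2', hl3', hl4'⟩ := hlist (i + 1)
    refine ⟨l.prod, hprod l (by omega) hl2, l'.prod, hprod l' (by omega) hl2', hl3, hl3', ?_⟩
    rw [hl4, hl4']
    exact hne
  constructor
  · rw [frequently_iff]
    intro V hV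
    obtain ⟨y, hy, y', hy', h1, h2, h3⟩ := hex V hV
    by_cases h : Nat.log 2 (s (g * y)).card % 2 = 0
    · exact ⟨y, hy, h1, h⟩
    · exact ⟨y', hy', h2, show Nat.log 2 (s (g * y')).card % 2 = 0 by omega⟩
  · rw [frequently_iff]
    intro V hV
    obtain ⟨y, hy, y', hy', h1, h2, h3⟩ := hex V hV
    by_cases h : Nat.log 2 (s (g * y)).card % 2 = 0
    · exact ⟨y', hy', h2, show ¬ Nat.log 2 (s (g * y')).card % 2 = 0 by omega⟩
    · exact ⟨y, hy, h1, h⟩

/-- A group of exponent two embeds in a group of finite sets under symmetric difference. -/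
lemma exists_support {Q : Type} [Group Q] (hc : ∀ a b : Q, a * b = b * a)
    (h2 : ∀ a : Q, a * a = 1) :
    ∃ (ι : Type) (_ : DecidableEq ι) (s : Q → Finset ι), Function.Injective s ∧
      ∀ a b, s (a * b) = s a ∆ s b := by
  classical
  let _ : CommGroup Q := { (inferInstance : Group Q) with mul_comm := hc }
  let _ : Module (ZMod 2) (Additive Q) := AddCommGroup.zmodModule (by
    intro x
    rw [two_nsmul]
    exact h2 (Additive.toMul x))
  let b := Module.Basis.ofVectorSpace (ZMod 2) (Additive Q)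
  refine ⟨_, inferInstance, fun a => (b.repr (Additive.ofMul a)).support, ?_, ?_⟩
  · intro a a' h
    have h1 : b.repr (Additive.ofMul a) = b.repr (Additive.ofMul a') := by
      ext i
      have h3 := Finset.ext_iff.mp h i
      simp only [Finsupp.mem_support_iff] at h3
      revert h3
      generalize (b.repr (Additive.ofMul a)) i = u
      generalize (b.repr (Additive.ofMul a')) i = v
      revert u v
      decide
    exact Additive.ofMul.injective (b.repr.injective h1)
  · intro a a'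
    ext i
    simp only [ofMul_mul, map_add, Finsupp.mem_support_iff, Finset.mem_symmDiff, Finsupp.add_apply]
    generalize (b.repr (Additive.ofMul a)) i = u
    generalize (b.repr (Additive.ofMul a')) i = v
    revert u v
    decide

end Pool.Agent.Lib.MP_37ca1f_al
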