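import Mathlib
import Pool.Agent.Lib.MP_37ca1f_al.Basic

set_option autoImplicit false

namespace Pool.Agent.Lib.MP_37ca1f_al

open Filter Set Topology

lemma exists_disjoint_ultrafilters {α : Type} {S : Set (Ultrafilter α)} (hS : S.Infinite) :
    ∃ (p : ℕ → Ultrafilter α) (A : ℕ → Set α), (∀ i, p i ∈ S) ∧ (∀ i, A i ∈ p i) ∧
      Pairwise (Function.onFun Disjoint A) := by
  have : Infinite S := hS.to_subtype
  obtain ⟨U, hU1, hU2, hU3⟩ := exists_seq_infinite_isOpen_pairwise_disjoint S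
  choose q hq using fun i => (hU1 i).nonempty
  have hB : ∀ i, ∃ B : Set α, B ∈ (q i).1 ∧ ∀ r : S, B ∈ r.1 → r ∈ U i := by
    intro i
    obtain ⟨t, ht, hte⟩ := isOpen_induced_iff.mp (hU2 i)
    have hqt : (q i).1 ∈ t := by
      have := hq i
      rw [← hte] at this
      exact this
    obtain ⟨_, ⟨B, rfl⟩, h1, h2⟩ := ultrafilterBasis_is_basis.exists_subset_of_mem_open hqt ht
    refine ⟨B, h1, fun r hr => ?_⟩
    rw [← hte]
    exact h2 hr
  choose B hB1 hB2 using hB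
  refine ⟨fun i => (q i).1, disjointed B, fun i => (q i).2, fun i => ?_, disjoint_disjointed B⟩
  rw [disjointed_eq_inter_compl]
  refine inter_mem (hB1 i) ?_
  have : (⋂ j, ⋂ (_ : j < i), (B j)ᶜ) ∈ ((q i).1 : Filter α) := by
    refine (biInter_mem (finite_lt_nat i)).mpr fun j hj => ?_
    apply Ultrafilter.compl_mem_iff_notMem.mpr
    intro hmem
    have hji : j ≠ i := ne_of_lt hj
    exact Set.disjoint_left.mp (hU3 hji) (hB2 j _ hmem) (hq i)
  exact this

lemma exists_good_index (c : ℕ → ZMod 2) : ∃ n₀ : ℕ, ∀ n, n₀ < n → ∀ b : ZMod 2,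
    ∃ᶠ i in atTop, (if (Nat.unpair i).1 = n then (1 : ZMod 2) else 0) + c i = b := by
  let E : ℕ → ℕ → ZMod 2 := fun n i => if (Nat.unpair i).1 = n then 1 else 0
  have hten : ∀ n, Tendsto (fun m => Nat.pair n m) atTop atTop := fun n =>
    tendsto_atTop_mono (fun m => Nat.right_le_pair n m) tendsto_id
  have huniq : ∀ n n' b b', (∀ᶠ i in atTop, E n i + c i ≠ b) →
      (∀ᶠ i in atTop, E n' i + c i ≠ b') → n = n' := by
    intro n n' b b' h h'
    by_contra hne
    have hand := h.and h'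
    obtain ⟨m, hm1, hm2⟩ := ((hten n).eventually hand).exists
    obtain ⟨k, hk1, hk2⟩ := ((hten (n + n' + 1)).eventually hand).exists
    have a1 : n + n' + 1 ≠ n := by omega
    have a2 : n + n' + 1 ≠ n' := by omega
    simp only [E, Nat.unpair_pair, if_true, hne, if_false, a1, a2] at hm1 hm2 hk1 hk2
    have key : ∀ b b' u v : ZMod 2, 1 + u ≠ b → 0 + u ≠ b' → 0 + v ≠ b → 0 + v ≠ b' → False := by
      decide
    exact key _ _ _ _ hm1 hm2 hk1 hk2
  by_cases hex : ∃ n b, ∀ᶠ i in atTop, E n i + c i ≠ b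
  · obtain ⟨n₀, b₀, h₀⟩ := hex
    refine ⟨n₀, fun n hn b => ?_⟩
    by_contra hcon
    rw [not_frequently] at hcon
    have := huniq n n₀ b b₀ hcon h₀
    omega
  · refine ⟨0, fun n _ b => ?_⟩
    by_contra hcon
    rw [not_frequently] at hcon
    exact hex ⟨n, b, hcon⟩

variable {G : Type} [Group G] [TopologicalSpace G] [IsTopologicalGroup G]

lemma exists_piece (hclopen : ∀ V ∈ 𝓝 (1 : G), ∃ X, IsClopen X ∧ (1 : G) ∈ X ∧ X ⊆ V)
    (hsep : ∀ x : G, x ≠ 1 → ∃ V ∈ 𝓝 (1 : G), x ∉ V)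
    (hnd : ∀ V ∈ 𝓝 (1 : G), ∃ x ∈ V, x ≠ 1)
    (C : Set G) (hC : IsClopen C) (h1 : (1 : G) ∉ C) (g : G) (F : G → Finset G) :
    ∃ (a : G) (X : Set G), IsClopen X ∧ (1 : G) ∈ X ∧ (∀ x ∈ X, a * x ∉ C) ∧ (∀ x ∈ X, x ∉ C) ∧
      (∀ x ∈ X, a * x ∉ X) ∧ (g = 1 ∨ g ∈ C ∨ a = g) ∧ (∀ z ∈ F a, z ∈ X → z = 1) := by
  obtain ⟨a, ha1, haC, hag⟩ : ∃ a : G, a ≠ 1 ∧ a ∉ C ∧ (g = 1 ∨ g ∈ C ∨ a = g) := by
    by_cases hg : g = 1 ∨ g ∈ C
    · obtain ⟨a, ha, ha1⟩ := hnd Cᶜ (hC.compl.isOpen.mem_nhds h1)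
      exact ⟨a, ha1, ha, by tauto⟩
    · push Not at hg
      exact ⟨g, hg.1, hg.2, Or.inr (Or.inr rfl)⟩
  obtain ⟨U, hU, haU⟩ := hsep a ha1
  obtain ⟨W₀, hW₀, hWU⟩ := gf_nhds.mul U hU
  obtain ⟨W, hW, hWW, hWinv⟩ := gf_nhds.symm hW₀
  have e1 : ∀ᶠ x in 𝓝 (1 : G), a * x ∉ C := by
    have hcont : Continuous fun x : G => a * x := by fun_prop
    have := hcont.tendsto 1
    rw [mul_one] at this
    exact this (hC.compl.isOpen.mem_nhds haC)
  have e2 : ∀ᶠ x in 𝓝 (1 : G), x ∉ C := hC.compl.isOpen.mem_nhds h1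
  have e3 : ∀ᶠ x in 𝓝 (1 : G), ∀ z ∈ F a, z ≠ 1 → x ≠ z := by
    rw [eventually_all_finset]
    intro z _
    by_cases hz : z = 1
    · simp [hz]
    · obtain ⟨V, hV, hzV⟩ := hsep z hz
      filter_upwards [hV] with x hx _ hxz
      exact hzV (hxz ▸ hx)
  obtain ⟨X, hX, hX1, hXsub⟩ := hclopen _ (inter_mem (inter_mem e1 e2) (inter_mem e3 hW))
  refine ⟨a, X, hX, hX1, fun x hx => (hXsub hx).1.1, fun x hx => (hXsub hx).1.2, ?_, hag, ?_⟩
  · intro x hx hax
    apply haU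
    have := hWU _ (hWW (hXsub hax).2.2) _ (hWW (hWinv _ (hXsub hx).2.2))
    simpa using this
  · intro z hz hzX
    by_contra hz1
    exact (hXsub hzX).2.1 z hz hz1 rfl

/-- The tree decomposition of a countable zero-dimensional group. -/
lemma exists_decomp [Countable G]
    (hclopen : ∀ V ∈ 𝓝 (1 : G), ∃ X, IsClopen X ∧ (1 : G) ∈ X ∧ X ⊆ V)
    (hsep : ∀ x : G, x ≠ 1 → ∃ V ∈ 𝓝 (1 : G), x ∉ V)
    (hnd : ∀ V ∈ 𝓝 (1 : G), ∃ x ∈ V, x ≠ 1) :
    ∃ (a : ℕ → G) (X : ℕ → Set G), (∀ n, IsOpen (X n)) ∧ (∀ n, (1 : G) ∈ X n) ∧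
      (∀ i n x y, x ∈ X i → y ∈ X n → a i * x = a n * y → i = n) ∧
      (∀ i n x, i ≤ n → x ∈ X i → a i * x ∉ X n) ∧
      (∀ Q : G → Prop, Q 1 → (∀ n x, x ∈ X n → Q x → Q (a n * x)) → ∀ x, Q x) := by
  classical
  obtain ⟨g, hg⟩ := exists_surjective_nat G
  let St := {s : Set G × Finset G // IsClopen s.1 ∧ (1 : G) ∉ s.1}
  let FF : ℕ → St → G → Finset G := fun n s a =>
    Finset.image₂ (· * ·) (s.1.2 ∪ s.1.2.image (a⁻¹ * ·)) ((Finset.range (n + 1)).image g)
  choose aa XX h1 h2 h3 h4 h5 h6 h7 using fun (n : ℕ) (s : St) =>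
    exists_piece hclopen hsep hnd s.1.1 s.2.1 s.2.2 (g n) (FF n s)
  let next : ℕ → St → St := fun n s =>
    ⟨(s.1.1 ∪ {x | (aa n s)⁻¹ * x ∈ XX n s}, s.1.2 ∪ s.1.2.image ((aa n s)⁻¹ * ·)),
      s.2.1.union ((h1 n s).preimage (by fun_prop)), by
        rintro (h | h)
        · exact s.2.2 h
        · have := h5 n s _ h
          simp only [mul_one, mul_inv_cancel] at this
          exact this (h2 n s)⟩
  let st : ℕ → St := fun n => Nat.rec ⟨(∅, {1}), isClopen_empty, by simp⟩ next n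
  have hst : ∀ n, st (n + 1) = next n (st n) := fun n => rfl
  let a : ℕ → G := fun n => aa n (st n)
  let X : ℕ → Set G := fun n => XX n (st n)
  let C : ℕ → Set G := fun n => (st n).1.1
  let M : ℕ → Finset G := fun n => (st n).1.2
  have hC : ∀ n, C (n + 1) = C n ∪ {x | (a n)⁻¹ * x ∈ X n} := fun n => rfl
  have hM : ∀ n, M (n + 1) = M n ∪ (M n).image ((a n)⁻¹ * ·) := fun n => rfl
  have hCmono : Monotone C := monotone_nat_of_le_succ fun n => by
    rw [hC]; exact subset_union_left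
  have hMmono : Monotone M := monotone_nat_of_le_succ fun n => by
    rw [hM]; exact Finset.subset_union_left
  have hPC : ∀ i n x, i < n → x ∈ X i → a i * x ∈ C n := by
    intro i n x hin hx
    apply hCmono (Nat.succ_le_of_lt hin)
    rw [hC]
    right
    simpa using hx
  have hCP : ∀ n, ∀ x ∈ C n, ∃ i, (a i)⁻¹ * x ∈ X i := by
    intro n
    induction n with
    | zero => intro x hx; exact absurd hx (by simp [C, st])
    | succ n ih =>
      intro x hx
      rw [hC] at hx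
      rcases hx with hx | hx
      · exact ih x hx
      · exact ⟨n, hx⟩
  have hPX : ∀ i n x, i ≤ n → x ∈ X i → a i * x ∉ X n := by
    intro i n x hin hx hmem
    rcases hin.lt_or_eq with h | h
    · exact h4 n (st n) _ hmem (hPC i n x h hx)
    · subst h
      exact h5 i (st i) x hx hmem
  have hcover : ∀ x : G, x ≠ 1 → ∃ i, (a i)⁻¹ * x ∈ X i := by
    intro x hx
    obtain ⟨m, rfl⟩ := hg x
    rcases h6 m (st m) with h | h | h
    · exact absurd h hx
    · exact hCP m _ h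
    · refine ⟨m, ?_⟩
      have e : a m = g m := h
      rw [e, inv_mul_cancel]
      exact h2 m (st m)
  refine ⟨a, X, fun n => (h1 n (st n)).isOpen, fun n => h2 n (st n), ?_, hPX, ?_⟩
  · intro i n x y hx hy hxy
    rcases lt_trichotomy i n with h | h | h
    · exact absurd (hxy ▸ hPC i n x h hx) (h3 n (st n) y hy)
    · exact h
    · exact absurd (hxy ▸ hPC n i y h hy) (h3 i (st i) x hx)
  · intro Q hQ1 hQ x
    obtain ⟨m, rfl⟩ := hg x
    have key : ∀ j k, m ≤ k + j → ∀ u ∈ M (k + 1), u * g m ∈ X k → Q (u * g m) := by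
      intro j
      induction j with
      | zero =>
        intro k hk u hu hX
        have : u * g m = 1 := h7 k (st k) _ (Finset.mem_image₂_of_mem hu
          (Finset.mem_image_of_mem g (Finset.mem_range.mpr (by omega)))) hX
        rw [this]; exact hQ1
      | succ j ih =>
        intro k hk u hu hX
        by_cases hx : u * g m = 1
        · rw [hx]; exact hQ1
        · obtain ⟨n, hn⟩ := hcover _ hx
          have hkn : k < n := by
            by_contra hle
            push Not at hle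
            have := hPX n k _ hle hn
            rw [mul_inv_cancel_left] at this
            exact this hX
          have hu' : (a n)⁻¹ * u ∈ M (n + 1) := by
            rw [hM]
            exact Finset.mem_union_right _
              (Finset.mem_image_of_mem _ (hMmono (Nat.succ_le_of_lt hkn) hu))
          have := hQ n _ hn (by
            rw [← mul_assoc] at hn ⊢
            exact ih n (by omega) _ hu' hn)
          rwa [mul_inv_cancel_left] at this
    by_cases hx : g m = 1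
    · rw [hx]; exact hQ1
    · obtain ⟨n, hn⟩ := hcover _ hx
      have hu' : (a n)⁻¹ * 1 ∈ M (n + 1) := by
        rw [hM]
        refine Finset.mem_union_right _ (Finset.mem_image_of_mem _ (hMmono (Nat.zero_le n) ?_))
        simp [M, st]
      rw [mul_one] at hu'
      have := hQ n _ hn (key m n (by omega) _ hu' hn)
      rwa [mul_inv_cancel_left] at this

omit [TopologicalSpace G] [IsTopologicalGroup G] in
/-- Solving the cocycle equation along the tree. -/
lemma exists_cocycle {a : ℕ → G} {X : ℕ → Set G} (h1 : ∀ n, (1 : G) ∈ X n)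
    (hd : ∀ i n x y, x ∈ X i → y ∈ X n → a i * x = a n * y → i = n)
    (hPX : ∀ i n x, i ≤ n → x ∈ X i → a i * x ∉ X n)
    (hind : ∀ Q : G → Prop, Q 1 → (∀ n x, x ∈ X n → Q x → Q (a n * x)) → ∀ x, Q x)
    (γ : ℕ → G → ZMod 2) :
    ∃ χ : G → ZMod 2, ∀ n x, x ∈ X n → χ (a n * x) = χ x + γ n x := by
  classical
  let r : G → G → Prop := fun x' x => ∃ n, x' ∈ X n ∧ x = a n * x'
  have hwf : WellFounded r := by
    refine ⟨hind _ ⟨_, ?_⟩ ?_⟩
    · rintro y ⟨n, hy, e⟩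
      exact absurd (e ▸ h1 n) (hPX n n y le_rfl hy)
    · intro n x hx hacc
      refine ⟨_, ?_⟩
      rintro y ⟨m, hy, e⟩
      have := hd n m x y hx hy e
      subst this
      rw [← mul_left_cancel e]
      exact hacc
  let F : ∀ x : G, (∀ y, r y x → ZMod 2) → ZMod 2 := fun x ih =>
    if h : ∃ p : ℕ × G, p.2 ∈ X p.1 ∧ x = a p.1 * p.2 then
      ih h.choose.2 ⟨h.choose.1, h.choose_spec⟩ + γ h.choose.1 h.choose.2 else 0
  refine ⟨hwf.fix F, fun n x hx => ?_⟩
  rw [WellFounded.fix_eq]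
  have h : ∃ p : ℕ × G, p.2 ∈ X p.1 ∧ a n * x = a p.1 * p.2 := ⟨(n, x), hx, rfl⟩
  have e1 : h.choose.1 = n := (hd _ _ _ _ hx h.choose_spec.1 h.choose_spec.2).symm
  have e2 : h.choose.2 = x := by
    have := h.choose_spec.2
    rw [e1] at this
    exact (mul_left_cancel this).symm
  show F (a n * x) (fun y _ => hwf.fix F y) = _
  have e3 : F (a n * x) (fun y _ => hwf.fix F y) =
      hwf.fix F h.choose.2 + γ h.choose.1 h.choose.2 := dif_pos h
  rw [e3, e1, e2]

/-- The countable case. -/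
theorem res_of_countable [Countable G]
    (hclopen : ∀ V ∈ 𝓝 (1 : G), ∃ X, IsClopen X ∧ (1 : G) ∈ X ∧ X ⊆ V)
    (hsep : ∀ x : G, x ≠ 1 → ∃ V ∈ 𝓝 (1 : G), x ∉ V)
    (hS : Set.Infinite {p : Ultrafilter G | (p : Filter G) ≤ cofinite ∧ (p : Filter G) ≤ 𝓝 1}) :
    Res (𝓝 (1 : G)) := by
  classical
  obtain ⟨p, A₀, hp, hA₀, hdisj⟩ := exists_disjoint_ultrafilters hS
  have hne1 : ∀ i, ∀ᶠ y in (p i : Filter G), y ≠ 1 := fun i =>
    (hp i).1 (eventually_cofinite_ne 1)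
  have hnd : ∀ V ∈ 𝓝 (1 : G), ∃ x ∈ V, x ≠ 1 := fun V hV =>
    (Eventually.and (show ∀ᶠ y in (p 0 : Filter G), y ∈ V from (hp 0).2 hV) (hne1 0)).exists
  obtain ⟨a, X, hXo, hX1, hd, hPX, hind⟩ := exists_decomp hclopen hsep hnd
  have hXn : ∀ n, X n ∈ 𝓝 (1 : G) := fun n => (hXo n).mem_nhds (hX1 n)
  have hmulX : ∀ z k, z ∈ X k → ∀ᶠ y in 𝓝 (1 : G), z * y ∈ X k := by
    intro z k hz
    have hcont : Continuous fun y : G => z * y := by fun_prop
    have := hcont.tendsto 1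
    rw [mul_one] at this
    exact this ((hXo k).mem_nhds hz)
  let j : G → ℕ := fun x => if h : ∃ i, x ∈ A₀ i ∩ X i then h.choose else 0
  have hj1 : ∀ i x, x ∈ A₀ i ∩ X i → j x = i := by
    intro i x hx
    have h : ∃ i, x ∈ A₀ i ∩ X i := ⟨i, hx⟩
    simp only [j, dif_pos h]
    by_contra hne
    exact Set.disjoint_left.mp (hdisj hne) h.choose_spec.1 hx.1
  have hj2 : ∀ n x, x ∈ X n → j (a n * x) ≤ n := by
    intro n x hx
    by_cases h : ∃ i, a n * x ∈ A₀ i ∩ X i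
    · simp only [j, dif_pos h]
      by_contra hlt
      push Not at hlt
      exact hPX n _ x hlt.le hx h.choose_spec.2
    · simp only [j, dif_neg h]
      exact Nat.zero_le _
  have hbound : ∀ z : G, ∃ b : ℕ, z ≠ 1 → ∀ᶠ y in 𝓝 (1 : G), j (z * y) ≤ b := by
    apply hind
    · exact ⟨0, fun h => absurd rfl h⟩
    · intro n x hx _
      refine ⟨n, fun _ => ?_⟩
      filter_upwards [hmulX x n hx] with y hy
      rw [mul_assoc]
      exact hj2 n _ hy
  choose b hb using hbound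
  have hlim : ∀ i z, ∃ v ≤ b z, z ≠ 1 → ∀ᶠ y in (p i : Filter G), j (z * y) = v := by
    intro i z
    by_cases hz : z = 1
    · exact ⟨0, Nat.zero_le _, fun h => absurd hz h⟩
    · have h1 : ∀ᶠ y in (p i : Filter G), ∃ v ∈ Iic (b z), j (z * y) = v :=
        ((hb z hz).filter_mono (hp i).2).mono fun y hy => ⟨_, hy, rfl⟩
      obtain ⟨v, hv, hv'⟩ := (Ultrafilter.eventually_exists_mem_iff (finite_Iic (b z))).mp h1
      exact ⟨v, hv, fun _ => hv'⟩
  choose J hJb hJ using hlim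
  have hcomp : IsCompact (Set.pi univ fun z : G => Iic (b z)) :=
    isCompact_univ_pi fun z => (finite_Iic (b z)).isCompact
  obtain ⟨Js, -, φ, hφ, hconv⟩ := hcomp.tendsto_subseq (x := J) (fun i z _ => hJb i z)
  have hJs : ∀ z, ∀ᶠ i in atTop, J (φ i) z = Js z := by
    intro z
    have := tendsto_pi_nhds.mp hconv z
    rw [nhds_discrete, tendsto_pure] at this
    exact this
  let E : ℕ → ℕ → ZMod 2 := fun n i => if (Nat.unpair i).1 = n then 1 else 0
  let κ : ℕ → ℕ := Function.invFun φ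
  have hκ : ∀ i, κ (φ i) = i := Function.leftInverse_invFun hφ.injective
  obtain ⟨χ, hχ⟩ := exists_cocycle hX1 hd hPX hind (fun n x => E n (κ (j x)))
  have hc : ∀ i, ∃ c : ZMod 2, ∀ᶠ y in (p (φ i) : Filter G), χ y = c := by
    intro i
    have h1 : ∀ᶠ y in (p (φ i) : Filter G), ∃ v ∈ (univ : Set (ZMod 2)), χ y = v :=
      Eventually.of_forall fun y => ⟨_, mem_univ _, rfl⟩
    obtain ⟨v, -, hv'⟩ := (Ultrafilter.eventually_exists_mem_iff finite_univ).mp h1
    exact ⟨v, hv'⟩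
  choose c hc using hc
  let Good : G → ℕ → Prop := fun z n => z ≠ 1 ∧ ∃ d : ZMod 2,
    ∀ᶠ i in atTop, ∀ᶠ y in (p (φ i) : Filter G), χ (z * y) = d + (E n i + c i)
  have hne : ∀ k z, z ∈ X k → a k * z ≠ 1 := fun k z hz e =>
    hPX k k z le_rfl hz (e ▸ hX1 k)
  have hS : ∀ z n k, Good z n → z ∈ X k → Good (a k * z) n := by
    rintro z n k ⟨hz, d, hd⟩ hzk
    refine ⟨hne k z hzk, d + E k (κ (Js z)), ?_⟩
    filter_upwards [hd, hJs z] with i hi1 hi2
    filter_upwards [hi1, hJ (φ i) z hz, (hmulX z k hzk).filter_mono (hp (φ i)).2] with y h1 h2 h3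
    rw [mul_assoc, hχ k _ h3, h1, h2, hi2]
    ring
  have hB : ∀ n, Good (a n) n := by
    intro n
    refine ⟨by simpa using hne n 1 (hX1 n), 0, Eventually.of_forall fun i => ?_⟩
    filter_upwards [hc i, hA₀ (φ i), (hp (φ i)).2 (hXn (φ i)), (hp (φ i)).2 (hXn n)]
      with y h1 h2 h3 h4
    rw [hχ n _ h4, h1, hj1 (φ i) y ⟨h2, h3⟩, hκ]
    ring
  have hEx : ∀ y : G, y = 1 ∨ ∃ n, Good y n ∧ ∀ k, y ∈ X k → k < n := by
    apply hind
    · exact Or.inl rfl
    · intro m x hx ih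
      right
      have hlt : ∀ k, a m * x ∈ X k → k < m := by
        intro k hk
        by_contra hle
        push Not at hle
        exact hPX m k x hle hx hk
      rcases ih with rfl | ⟨n, hn1, hn2⟩
      · exact ⟨m, by simpa using hB m, hlt⟩
      · exact ⟨n, hS x n m hn1 hx, fun k hk => (hlt k hk).trans (hn2 m hx)⟩
  have hQ : ∀ x : G, ∀ᶠ y in 𝓝 (1 : G), ∀ n, Good y n → Good (x * y) n := by
    apply hind
    · exact Eventually.of_forall fun y n h => by simpa using h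
    · intro k x hx ih
      filter_upwards [ih, hmulX x k hx] with y h1 h2 n hn
      rw [mul_assoc]
      exact hS _ n k (h1 n hn) h2
  obtain ⟨n₀, hn₀⟩ := exists_good_index c
  have hmain : ∀ (g : G) (v : ZMod 2), ∃ᶠ y in 𝓝 (1 : G), χ (g * y) = v := by
    intro g v
    rw [frequently_iff]
    intro V hV
    obtain ⟨W, hW, hWV⟩ := gf_nhds.mul V hV
    obtain ⟨y, ⟨⟨hy1, hy2⟩, hy3⟩, hy4⟩ := hnd _ (inter_mem (inter_mem hW (hXn n₀)) (hQ g))
    obtain ⟨n, hn1, hn2⟩ := (hEx y).resolve_left hy4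
    obtain ⟨-, d, hd⟩ := hy3 n hn1
    obtain ⟨i, hi1, hi2⟩ := ((hn₀ n (hn2 n₀ hy2) (v - d)).and_eventually hd).exists
    obtain ⟨y', h1, h2⟩ := (hi2.and
      (show ∀ᶠ y in (p (φ i) : Filter G), y ∈ W from (hp (φ i)).2 hW)).exists
    refine ⟨y * y', hWV y hy1 y' h2, ?_⟩
    rw [← mul_assoc, h1]
    have hi1' : E n i + c i = v - d := hi1
    rw [hi1']
    ring
  refine ⟨{x | χ x = 0}, fun g => ⟨hmain g 0, (hmain g 1).mono fun y hy h0 => ?_⟩⟩
  have h0' : χ (g * y) = 0 := h0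
  rw [hy] at h0'
  exact one_ne_zero h0'

end Pool.Agent.Lib.MP_37ca1f_al
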