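import Mathlib
import Pool.Agent.Lib.MP_37ca1f_al.Basic

set_option autoImplicit false

namespace Pool.Agent.Lib.MP_37ca1f_al

open Filter Set Cardinal

variable {G : Type} [Group G]

/-- An ordinal valued ultra-norm with small sublevel sets. -/
structure IsRank (μ : G → Ordinal.{0}) : Prop where
  small : ∀ a, #{z | μ z ≤ μ a} < #G
  mul : ∀ x y, μ (x * y) ≤ max (μ x) (μ y)
  inv : ∀ x, μ x⁻¹ = μ x

lemma exists_isRank (F : Finset G) (V : Set G) (c : Cardinal) (hc : ℵ₀ ≤ c) (hcG : c < #G)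
    (hV : ∀ k : G → G, #{y | y ∈ V ∧ ∀ h ∈ F, y * h * y⁻¹ = k h} ≤ c) :
    ∃ μ : G → Ordinal.{0}, IsRank μ ∧
      ∀ y ∈ V, ∀ a, (∀ h ∈ F, μ (y * h * y⁻¹) ≤ μ a) → μ y ≤ μ a := by
  classical
  let T : Finset G → Set G := fun s =>
    (image2 (· * ·) (s : Set G) s ∪ (fun x => x⁻¹) '' (s : Set G)) ∪
      {y | y ∈ V ∧ ∀ h ∈ F, y * h * y⁻¹ ∈ s}
  have hT : ∀ s, #(T s) ≤ c := by
    intro s
    have h1 : #(image2 (· * ·) (s : Set G) s ∪ (fun x => x⁻¹) '' (s : Set G) : Set G) ≤ c := by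
      refine le_trans (le_of_lt ?_) hc
      rw [lt_aleph0_iff_set_finite]
      exact (Finite.image2 _ s.finite_toSet s.finite_toSet).union (s.finite_toSet.image _)
    have h2 : #{y | y ∈ V ∧ ∀ h ∈ F, y * h * y⁻¹ ∈ s} ≤ c := by
      let ext : (F → s) → G → G := fun k h => if hh : h ∈ F then (k ⟨h, hh⟩ : G) else 1
      have hsub : {y | y ∈ V ∧ ∀ h ∈ F, y * h * y⁻¹ ∈ s} ⊆
          ⋃ k : F → s, {y | y ∈ V ∧ ∀ h ∈ F, y * h * y⁻¹ = ext k h} := by
        rintro y ⟨hy, hys⟩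
        refine mem_iUnion.mpr ⟨fun h => ⟨y * h * y⁻¹, hys h h.2⟩, hy, fun h hh => ?_⟩
        simp [ext, hh]
      refine (mk_le_mk_of_subset hsub).trans ((mk_iUnion_le _).trans ?_)
      have h3 : ⨆ k : F → s, #{y | y ∈ V ∧ ∀ h ∈ F, y * h * y⁻¹ = ext k h} ≤ c :=
        ciSup_le' fun k => hV _
      calc _ ≤ c * c := mul_le_mul' (mk_le_aleph0.trans hc) h3
        _ = c := mul_eq_self hc
    refine (mk_union_le _ _).trans ?_
    calc _ ≤ c + c := add_le_add h1 h2
      _ = c := add_eq_self hc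
  obtain ⟨μ, h1, h2⟩ := exists_rank T c hc hcG hT
  have hinv : ∀ x, μ x⁻¹ ≤ μ x := by
    intro x
    refine h2 {x} x (by simp) _ (Or.inl (Or.inr ⟨x, by simp, rfl⟩))
  refine ⟨μ, ⟨h1, ?_, fun x => le_antisymm (hinv x) (by simpa using hinv x⁻¹)⟩, ?_⟩
  · intro x y
    have hmem : x * y ∈ T {x, y} := Or.inl (Or.inl ⟨x, by simp, y, by simp, rfl⟩)
    rcases le_total (μ x) (μ y) with h | h
    · rw [max_eq_right h]
      refine h2 {x, y} y ?_ _ hmem
      intro z hz
      rcases Finset.mem_insert.mp hz with rfl | hz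
      · exact h
      · rw [Finset.mem_singleton.mp hz]
    · rw [max_eq_left h]
      refine h2 {x, y} x ?_ _ hmem
      intro z hz
      rcases Finset.mem_insert.mp hz with rfl | hz
      · exact le_rfl
      · rw [Finset.mem_singleton.mp hz]; exact h
  · intro y hy a ha
    refine h2 (F.image fun h => y * h * y⁻¹) a ?_ y (Or.inr ⟨hy, fun h hh => ?_⟩)
    · intro z hz
      obtain ⟨h, hh, rfl⟩ := Finset.mem_image.mp hz
      exact ha h hh
    · exact Finset.mem_image_of_mem _ hh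

namespace IsRank

variable {μ : G → Ordinal.{0}} (hμ : IsRank μ)
include hμ

lemma one_le (a : G) : μ 1 ≤ μ a := by
  have := hμ.mul a a⁻¹
  rwa [mul_inv_cancel, hμ.inv, max_self] at this

lemma mul_lt {x y : G} {o : Ordinal} (hx : μ x < o) (hy : μ y < o) : μ (x * y) < o :=
  (hμ.mul x y).trans_lt (max_lt hx hy)

lemma mul_left {h y : G} (hh : μ h < μ y) : μ (h * y) = μ y := by
  apply le_antisymm
  · exact (hμ.mul h y).trans (max_le hh.le le_rfl)
  · by_contra hcon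
    push Not at hcon
    have := hμ.mul_lt (x := h⁻¹) (y := h * y) (by rwa [hμ.inv]) hcon
    simp at this

lemma mul_right {h y : G} (hh : μ h < μ y) : μ (y * h) = μ y := by
  rw [← hμ.inv, mul_inv_rev, hμ.mul_left (by rwa [hμ.inv, hμ.inv]), hμ.inv]

lemma exists_gt {V : Set G} (hV : #G ≤ #V) (a : G) : ∃ y ∈ V, μ a < μ y := by
  by_contra hcon
  push Not at hcon
  have : #V ≤ #{z | μ z ≤ μ a} := mk_le_mk_of_subset fun y hy => hcon y hy
  exact absurd (hV.trans this) (not_le.mpr (hμ.small a))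

lemma coset_eq {h y : G} {o : Ordinal} (hh : μ h < o) :
    {w | μ (w * (h * y)⁻¹) < o} = {w | μ (w * y⁻¹) < o} := by
  ext w
  simp only [mem_ofPred_eq, mul_inv_rev]
  constructor
  · intro hw
    have := hμ.mul_lt hw hh
    simpa [mul_assoc] using this
  · intro hw
    have := hμ.mul_lt hw (show μ h⁻¹ < o by rwa [hμ.inv])
    simpa [mul_assoc] using this

end IsRank

lemma exists_colour_frequently {α C : Type} [Finite C] (U : Filter α) (χ : α → C)
    (h : ∀ W ∈ U, ∃ y ∈ W, ∃ y' ∈ W, χ y ≠ χ y') :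
    ∃ c, (∃ᶠ y in U, χ y = c) ∧ (∃ᶠ y in U, χ y ≠ c) := by
  have h1 : ∃ c, ∃ᶠ y in U, χ y = c := by
    by_contra hcon
    push Not at hcon
    have : ∀ᶠ y in U, ∀ c, χ y ≠ c := eventually_all.mpr hcon
    obtain ⟨y, hy, _⟩ := h _ this
    exact hy _ rfl
  obtain ⟨c, hc⟩ := h1
  refine ⟨c, hc, ?_⟩
  by_contra hcon
  push Not at hcon
  obtain ⟨y, hy, y', hy', hne⟩ := h _ hcon
  exact hne (hy.trans hy'.symm)

/-- Step 1: in an irresolvable group all of whose neighbourhoods have full (uncountable) size,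
centralisers of finite sets also meet all neighbourhoods in sets of full size. -/
theorem centralizer_big [TopologicalSpace G] [IsTopologicalGroup G] (hG : ℵ₀ < #G)
    (hV : ∀ V ∈ nhds (1 : G), #G ≤ #V) (hn : ¬ Res (nhds (1 : G))) (F : Finset G)
    (W : Set G) (hW : W ∈ nhds (1 : G)) :
    #G ≤ #(W ∩ {y | ∀ h ∈ F, y * h = h * y} : Set G) := by
  classical
  by_contra hcon
  push Not at hcon
  apply hn
  obtain ⟨V₁, hV₁, hV₁W⟩ := gf_nhds.mul W hW
  obtain ⟨V', hV', hV'V₁, hV'inv⟩ := gf_nhds.symm hV₁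
  set c := max ℵ₀ #(W ∩ {y | ∀ h ∈ F, y * h = h * y} : Set G) with hc
  have hfib : ∀ k : G → G, #{y | y ∈ V' ∧ ∀ h ∈ F, y * h * y⁻¹ = k h} ≤ c := by
    intro k
    rcases eq_empty_or_nonempty {y | y ∈ V' ∧ ∀ h ∈ F, y * h * y⁻¹ = k h} with he | ⟨y₀, hy₀⟩
    · rw [he]; simp
    · refine le_trans ?_ (le_max_right _ _)
      refine mk_le_of_injective (f := fun y => ⟨y₀⁻¹ * y.1, ?_, ?_⟩) ?_
      · exact hV₁W _ (hV'V₁ (hV'inv _ hy₀.1)) _ (hV'V₁ y.2.1)
      · intro h hh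
        have e1 := hy₀.2 h hh
        have e2 := y.2.2 h hh
        have e3 : y.1 * h * y.1⁻¹ = y₀ * h * y₀⁻¹ := e2.trans e1.symm
        calc y₀⁻¹ * y.1 * h = y₀⁻¹ * (y.1 * h * y.1⁻¹) * y.1 := by group
          _ = y₀⁻¹ * (y₀ * h * y₀⁻¹) * y.1 := by rw [e3]
          _ = h * (y₀⁻¹ * y.1) := by group
      · intro y y' hyy
        exact Subtype.ext (mul_left_cancel (congrArg Subtype.val hyy))
  obtain ⟨μ, hμ, hrule⟩ := exists_isRank F V' c (le_max_left _ _) (max_lt hG hcon) hfib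
  have hcol : ∀ h : G, ∃ col : Set G → Fin 3, ∀ Y : Set G,
      {w | w * h⁻¹ ∈ Y} ≠ Y → col {w | w * h⁻¹ ∈ Y} ≠ col Y := by
    intro h
    apply exists_three_colouring (fun Y : Set G => {w | w * h⁻¹ ∈ Y})
    intro Y Y' hY
    ext w
    have := Set.ext_iff.mp hY (w * h)
    simpa using this
  choose col hcol using hcol
  let f : G → Set G := fun y => {w | μ (w * y⁻¹) < μ y}
  let χ : G → (F → Fin 3) := fun y h => col h (f y)
  have hf : ∀ g y, μ g < μ y → f (g * y) = f y := by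
    intro g y hg
    show {w | μ (w * (g * y)⁻¹) < μ (g * y)} = {w | μ (w * y⁻¹) < μ y}
    rw [hμ.mul_left hg, hμ.coset_eq hg]
  let U : Filter G := nhds 1 ⊓ ⨅ g : G, principal {y | μ g < μ y}
  have hUmem : ∀ S ∈ U, ∃ V ∈ nhds (1 : G), ∃ g, ∀ y ∈ V, μ g < μ y → y ∈ S := by
    intro S hS
    have hb : (⨅ g : G, principal {y | μ g < μ y}).HasBasis (fun _ => True)
        (fun g => {y | μ g < μ y}) := by
      apply hasBasis_iInf_principal
      intro a b
      rcases le_total (μ a) (μ b) with h | h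
      · exact ⟨b, fun y hy => lt_of_le_of_lt h hy, le_rfl⟩
      · exact ⟨a, le_rfl, fun y hy => lt_of_le_of_lt h hy⟩
    obtain ⟨V, hV, B, hB, rfl⟩ := mem_inf_iff.mp hS
    obtain ⟨g, -, hg⟩ := hb.mem_iff.mp hB
    exact ⟨V, hV, g, fun y hy hgy => ⟨hy, hg hgy⟩⟩
  obtain ⟨c₀, hc1, hc2⟩ := exists_colour_frequently U χ (by
    intro S hS
    obtain ⟨V, hVn, g, hg⟩ := hUmem S hS
    have hconj : ∀ᶠ y in nhds (1 : G), ∀ h ∈ F, h⁻¹ * y * h ∈ V := by
      rw [eventually_all_finset]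
      intro h _
      have hcont : Continuous fun y : G => h⁻¹ * y * h := by fun_prop
      have := hcont.tendsto 1
      simp only [mul_one, inv_mul_cancel] at this
      exact this hVn
    obtain ⟨a, ha, hamax⟩ := (insert g F).exists_max_image μ ⟨g, by simp⟩
    obtain ⟨y, ⟨⟨hy1, hy2⟩, hy3⟩, hay⟩ :=
      hμ.exists_gt (hV _ (inter_mem (inter_mem hVn hV') hconj)) a
    have hgy : μ g < μ y := (hamax g (by simp)).trans_lt hay
    have hhy : ∀ h ∈ F, μ h < μ y := fun h hh => (hamax h (by simp [hh])).trans_lt hay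
    obtain ⟨h, hh, hne⟩ : ∃ h ∈ F, μ y ≤ μ (y * h * y⁻¹) := by
      by_contra hcon'
      push Not at hcon'
      obtain ⟨b, hb, hbmax⟩ := (insert 1 (F.image fun h => y * h * y⁻¹)).exists_max_image μ
        ⟨1, by simp⟩
      have h1 : μ y ≤ μ b := hrule y hy2 b fun h hh =>
        hbmax _ (Finset.mem_insert_of_mem (Finset.mem_image_of_mem _ hh))
      have h2 : μ b < μ y := by
        rcases Finset.mem_insert.mp hb with rfl | hb
        · exact (hμ.one_le a).trans_lt hay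
        · obtain ⟨h, hh, rfl⟩ := Finset.mem_image.mp hb
          exact hcon' h hh
      exact absurd h1 (not_le.mpr h2)
    have hyh : μ (y * h) = μ y := hμ.mul_right (hhy h hh)
    have hinv : μ h⁻¹ < μ (y * h) := by rw [hμ.inv, hyh]; exact hhy h hh
    have e1 : f (h⁻¹ * y * h) = {w | w * h⁻¹ ∈ f y} := by
      rw [mul_assoc, hf _ _ hinv]
      show {w | μ (w * (y * h)⁻¹) < μ (y * h)} = {w | μ (w * h⁻¹ * y⁻¹) < μ y}
      rw [hyh]
      simp only [mul_inv_rev, mul_assoc]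
    refine ⟨h⁻¹ * y * h, hg _ (hy3 h hh) ?_, y, hg _ hy1 hgy, ?_⟩
    · rw [mul_assoc, hμ.mul_left hinv, hyh]; exact hgy
    · intro hχ
      have e2 : col h (f (h⁻¹ * y * h)) = col h (f y) := congrFun hχ ⟨h, hh⟩
      rw [e1] at e2
      refine hcol h (f y) (fun e3 => ?_) e2
      have hmem : y * h ∈ {w | w * h⁻¹ ∈ f y} := by
        show μ (y * h * h⁻¹ * y⁻¹) < μ y
        simpa using (hμ.one_le a).trans_lt hay
      rw [e3] at hmem
      exact absurd hne (not_le.mpr hmem))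
  refine ⟨{y | χ y = c₀}, fun g => ?_⟩
  have hev : ∀ᶠ y in U, μ g < μ y :=
    mem_inf_of_right (mem_iInf_of_mem g (mem_principal_self _))
  have hχ : ∀ y, μ g < μ y → χ (g * y) = χ y := by
    intro y hy
    funext h
    show col h (f (g * y)) = col h (f y)
    rw [hf g y hy]
  constructor
  · refine ((hc1.and_eventually hev).filter_mono inf_le_left).mono ?_
    rintro y ⟨h1, h2⟩
    exact (hχ y h2).trans h1
  · refine ((hc2.and_eventually hev).filter_mono inf_le_left).mono ?_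
    rintro y ⟨h1, h2⟩ h3
    exact h1 ((hχ y h2).symm.trans h3)

/-- Step 2: if all centralisers are neighbourhoods and the squares of every neighbourhood
form a set of full size, the group is resolvable. -/
theorem res_of_squares (hG : ℵ₀ < #G) {N : Filter G} (hN : GF N)
    (hC : ∀ h : G, {y | y * h = h * y} ∈ N)
    (hsq : ∀ V ∈ N, #G ≤ #((fun y => y * y) '' V)) : Res N := by
  classical
  obtain ⟨μ, hμ, -⟩ := exists_isRank (∅ : Finset G) ∅ ℵ₀ le_rfl hG (by simp)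
  let f : G → Set G := fun y => {w | μ (w * y⁻¹) < μ (y * y)}
  let lt' : Set G → Set G → Prop := fun a b => WellOrderingRel a b
  refine ⟨{y | lt' (f y) (f y⁻¹)}, fun g => ?_⟩
  have hf : ∀ g y, y * g = g * y → μ g < μ (y * y) → f (g * y) = f y := by
    intro g y hc hg
    have e : g * y * (g * y) = g * g * (y * y) := by
      calc g * y * (g * y) = g * (y * g) * y := by group
        _ = g * (g * y) * y := by rw [hc]
        _ = g * g * (y * y) := by group
    show {w | μ (w * (g * y)⁻¹) < μ (g * y * (g * y))} = {w | μ (w * y⁻¹) < μ (y * y)}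
    rw [e, hμ.mul_left (hμ.mul_lt hg hg), hμ.coset_eq hg]
  have hkey : ∀ y, y * g = g * y → μ g < μ (y * y) →
      (lt' (f (g * y)) (f (g * y)⁻¹) ↔ lt' (f y) (f y⁻¹)) := by
    intro y hc hg
    have hc' : y⁻¹ * g⁻¹ = g⁻¹ * y⁻¹ := by
      rw [← mul_inv_rev, ← mul_inv_rev, hc]
    rw [hf g y hc hg, mul_inv_rev, hc', hf g⁻¹ y⁻¹ hc']
    rw [← mul_inv_rev, hμ.inv, hμ.inv]
    exact hg
  have hex : ∀ V ∈ N, ∃ y ∈ V, ∃ y' ∈ V, lt' (f (g * y)) (f (g * y)⁻¹) ∧
      ¬ lt' (f (g * y')) (f (g * y')⁻¹) := by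
    intro V hV
    obtain ⟨W, hW, hWV, hWinv⟩ := hN.symm (inter_mem hV (hC g))
    obtain ⟨_, ⟨y, hy, rfl⟩, hgy⟩ := hμ.exists_gt (hsq W hW) g
    have hgy' : μ g < μ (y⁻¹ * y⁻¹) := by rw [← mul_inv_rev, hμ.inv]; exact hgy
    have k1 := hkey y (hWV hy).2 hgy
    have k2 := hkey y⁻¹ (hWV (hWinv y hy)).2 hgy'
    rw [inv_inv] at k2
    have hne : f y ≠ f y⁻¹ := by
      intro e
      have hmem : y ∈ f y := by
        show μ (y * y⁻¹) < μ (y * y)
        simpa using (hμ.one_le g).trans_lt hgy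
      rw [e] at hmem
      have hmem' : μ (y * y⁻¹⁻¹) < μ (y⁻¹ * y⁻¹) := hmem
      rw [inv_inv, ← mul_inv_rev, hμ.inv] at hmem'
      exact lt_irrefl _ hmem'
    rcases trichotomous_of (WellOrderingRel (α := Set G)) (f y) (f y⁻¹) with h | h | h
    · refine ⟨y, (hWV hy).1, y⁻¹, (hWV (hWinv y hy)).1, k1.mpr h, fun h' => ?_⟩
      exact asymm_of WellOrderingRel h (k2.mp h')
    · exact absurd h hne
    · refine ⟨y⁻¹, (hWV (hWinv y hy)).1, y, (hWV hy).1, k2.mpr h, fun h' => ?_⟩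
      exact asymm_of WellOrderingRel h (k1.mp h')
  constructor
  · rw [frequently_iff]
    intro V hV
    obtain ⟨y, hy, _, _, h, _⟩ := hex V hV
    exact ⟨y, hy, h⟩
  · rw [frequently_iff]
    intro V hV
    obtain ⟨_, _, y, hy, _, h⟩ := hex V hV
    exact ⟨y, hy, h⟩

end Pool.Agent.Lib.MP_37ca1f_al
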