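import Mathlib
import Pool.Agent.Lib.MP_37ca1f_al.Rank
import Pool.Agent.Lib.MP_37ca1f_al.Boolean

set_option autoImplicit false

namespace Pool.Agent.Lib.MP_37ca1f_al

open Filter Set Cardinal
open scoped symmDiff

variable {G : Type} [Group G]

/-- A small subgroup, normalised by V, that contains the squares of products of two
elements of V. -/
lemma exists_small_normal (V V₁ : Set G) (c : Cardinal) (hc : ℵ₀ ≤ c)
    (hV : #((fun y => y * y) '' V) ≤ c) (h1 : (1 : G) ∈ V₁) (hinv : ∀ x ∈ V₁, x⁻¹ ∈ V₁)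
    (h4 : ∀ x ∈ V₁, ∀ y ∈ V₁, ∀ z ∈ V₁, ∀ w ∈ V₁, x * y * z * w ∈ V) :
    ∃ M : Subgroup G, #M ≤ c ∧ (∀ x ∈ V₁, ∀ y ∈ V₁, x * y * (x * y) ∈ M) ∧
      ∀ z ∈ V₁, ∀ d ∈ M, z⁻¹ * d * z ∈ M := by
  classical
  set D₀ : Set G := (fun y => y * y) '' V with hD₀
  have cc : c * c = c := mul_eq_self hc
  let D₃ : Set G := image2 (· * ·) (image2 (· * ·) D₀ D₀) D₀
  have hD₃ : #D₃ ≤ c := by
    refine mk_image2_le.trans ?_
    calc _ ≤ (c * c) * c := mul_le_mul' (mk_image2_le.trans (mul_le_mul' hV hV)) hV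
      _ = c := by rw [cc, cc]
  have hsq : ∀ x ∈ V₁, ∀ y ∈ V₁, x * y * (x * y) ∈ D₀ := fun x hx y hy =>
    ⟨x * y, by simpa using h4 x hx y hy 1 h1 1 h1, rfl⟩
  have hcomm : ∀ x ∈ V₁, ∀ z ∈ V₁, x⁻¹ * z⁻¹ * x * z ∈ D₃ := by
    intro x hx z hz
    refine ⟨_, ⟨_, hsq _ (hinv x hx) 1 h1, _, hsq x hx _ (hinv z hz), rfl⟩, _,
      hsq z hz 1 h1, ?_⟩
    group
  let O : G → Set G := fun d => (fun z => z⁻¹ * d * z) '' V₁
  let 𝒟 : Subgroup G :=
    { carrier := {d | #(O d) ≤ c}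
      one_mem' := by
        refine le_trans (mk_le_mk_of_subset (t := {1}) ?_) ?_
        · rintro _ ⟨z, _, rfl⟩; simp
        · simpa using one_le_aleph0.trans hc
      mul_mem' := by
        intro a b ha hb
        refine le_trans (mk_le_mk_of_subset (t := image2 (· * ·) (O a) (O b)) ?_) ?_
        · rintro _ ⟨z, hz, rfl⟩
          exact ⟨_, ⟨z, hz, rfl⟩, _, ⟨z, hz, rfl⟩, by group⟩
        · exact mk_image2_le.trans ((mul_le_mul' ha hb).trans cc.le)
      inv_mem' := by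
        intro a ha
        refine le_trans (mk_le_mk_of_subset (t := (fun x => x⁻¹) '' O a) ?_) ?_
        · rintro _ ⟨z, hz, rfl⟩
          exact ⟨_, ⟨z, hz, rfl⟩, by group⟩
        · exact mk_image_le.trans ha }
  have hconj : ∀ x ∈ V₁, ∀ d ∈ 𝒟, x⁻¹ * d * x ∈ 𝒟 := by
    intro x hx d hd
    refine le_trans (mk_le_mk_of_subset
      (t := image2 (fun d' k => k⁻¹ * x⁻¹ * d' * x * k) (O d) D₃) ?_) ?_
    · rintro _ ⟨z, hz, rfl⟩
      exact ⟨_, ⟨z, hz, rfl⟩, _, hcomm x hx z hz, by group⟩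
    · exact mk_image2_le.trans ((mul_le_mul' hd hD₃).trans cc.le)
  let T : Finset G → Set G := fun s =>
    (image2 (· * ·) (s : Set G) s ∪ (fun x => x⁻¹) '' (s : Set G)) ∪
      ⋃ d : {d // d ∈ s ∧ d ∈ 𝒟}, O d
  have hT : ∀ s, #(T s) ≤ c := by
    intro s
    have h1 : #(image2 (· * ·) (s : Set G) s ∪ (fun x => x⁻¹) '' (s : Set G) : Set G) ≤ c := by
      refine le_trans (le_of_lt ?_) hc
      rw [lt_aleph0_iff_set_finite]
      exact (Finite.image2 _ s.finite_toSet s.finite_toSet).union (s.finite_toSet.image _)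
    have h2 : #(⋃ d : {d // d ∈ s ∧ d ∈ 𝒟}, O d) ≤ c := by
      refine (mk_iUnion_le _).trans ?_
      have h3 : ⨆ d : {d // d ∈ s ∧ d ∈ 𝒟}, #(O d) ≤ c := ciSup_le' fun d => d.2.2
      have : Finite {d // d ∈ s ∧ d ∈ 𝒟} :=
        (s.finite_toSet.subset (fun d (hd : d ∈ s ∧ d ∈ 𝒟) => hd.1)).to_subtype
      calc _ ≤ c * c := mul_le_mul' (mk_le_aleph0.trans hc) h3
        _ = c := cc
    refine (mk_union_le _ _).trans ?_
    calc _ ≤ c + c := add_le_add h1 h2
      _ = c := add_eq_self hc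
  obtain ⟨K, hK1, hK2, hK3⟩ := exists_small_closed T c hc hT D₀ hV
  let K' : Subgroup G :=
    { carrier := K
      one_mem' := hK1 (by simpa using hsq 1 h1 1 h1)
      mul_mem' := by
        intro a b ha hb
        refine hK3 {a, b} ?_ (Or.inl (Or.inl ⟨a, by simp, b, by simp, rfl⟩))
        simp [insert_subset_iff, ha, hb]
      inv_mem' := by
        intro a ha
        refine hK3 {a} ?_ (Or.inl (Or.inr ⟨a, by simp, rfl⟩))
        simpa using ha }
  refine ⟨K' ⊓ 𝒟, ?_, ?_, ?_⟩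
  · exact (mk_le_mk_of_subset (s := (K' ⊓ 𝒟 : Subgroup G)) (t := K) fun x hx => hx.1).trans hK2
  · intro x hx y hy
    refine ⟨hK1 (hsq x hx y hy), ?_⟩
    refine le_trans (mk_le_mk_of_subset (t := D₀) ?_) hV
    rintro _ ⟨z, hz, rfl⟩
    exact ⟨z⁻¹ * x * y * z, h4 _ (hinv z hz) x hx y hy z hz, by group⟩
  · intro z hz d hd
    have hdK : d ∈ K := hd.1
    refine ⟨hK3 {d} (by simpa using hdK) (Or.inr ?_), hconj z hz d hd.2⟩
    exact mem_iUnion.mpr ⟨⟨d, by simp, hd.2⟩, z, hz, rfl⟩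

/-- Step 3: if some neighbourhood has few squares, the group is resolvable. -/
theorem res_of_few_squares (hG : ℵ₀ < #G) {N : Filter G} (hN : GF N)
    (hbig : ∀ W ∈ N, #G ≤ #W) (V : Set G) (hV : V ∈ N)
    (hsq : #((fun y => y * y) '' V) < #G) : Res N := by
  classical
  obtain ⟨V₀, hV₀, hprod⟩ := hN.prod 4 hV
  obtain ⟨V₁, hV₁, hV₁₀, hinv⟩ := hN.symm hV₀
  set c := max ℵ₀ #((fun y => y * y) '' V) with hc
  have hcG : c < #G := max_lt hG hsq
  have h1 : (1 : G) ∈ V₁ := hN.one _ hV₁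
  obtain ⟨M, hM1, hM2, hM3⟩ := exists_small_normal V V₁ c (le_max_left _ _) (le_max_right _ _)
    h1 hinv (by
      intro x hx y hy z hz w hw
      have := hprod [x, y, z, w] (by simp) (by
        intro u hu
        simp only [List.mem_cons, List.not_mem_nil, or_false] at hu
        rcases hu with rfl | rfl | rfl | rfl <;> apply hV₁₀ <;> assumption)
      simpa [mul_assoc] using this)
  let L : Subgroup G := Subgroup.closure V₁
  have hnorm : ∀ l ∈ L, (∀ d ∈ M, l⁻¹ * d * l ∈ M) ∧ (∀ d ∈ M, l * d * l⁻¹ ∈ M) := by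
    intro l hl
    induction hl using Subgroup.closure_induction with
    | mem x hx => exact ⟨hM3 x hx, fun d hd => by simpa using hM3 _ (hinv x hx) d hd⟩
    | one => simp
    | mul x y _ _ ihx ihy =>
      refine ⟨fun d hd => ?_, fun d hd => ?_⟩
      · have := ihy.1 _ (ihx.1 d hd)
        simpa [mul_assoc] using this
      · have := ihx.2 _ (ihy.2 d hd)
        simpa [mul_assoc] using this
    | inv x _ ih => exact ⟨by simpa using ih.2, by simpa using ih.1⟩
  have : (M.subgroupOf L).Normal := ⟨fun d hd l => by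
    rw [Subgroup.mem_subgroupOf] at hd ⊢
    exact (hnorm l l.2).2 _ hd⟩
  let π : L →* L ⧸ M.subgroupOf L := QuotientGroup.mk' _
  have hπ : ∀ l : L, π l = 1 ↔ (l : G) ∈ M := by
    intro l
    rw [← MonoidHom.mem_ker, QuotientGroup.ker_mk', Subgroup.mem_subgroupOf]
  have hgen2 : ∀ x (hx : x ∈ V₁), π ⟨x, Subgroup.subset_closure hx⟩ *
      π ⟨x, Subgroup.subset_closure hx⟩ = 1 := by
    intro x hx
    rw [← map_mul, hπ]
    simpa using hM2 x hx 1 h1
  have hgenc : ∀ x (hx : x ∈ V₁) y (hy : y ∈ V₁), Commute (π ⟨x, Subgroup.subset_closure hx⟩)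
      (π ⟨y, Subgroup.subset_closure hy⟩) := by
    intro x hx y hy
    have e : π ⟨x, Subgroup.subset_closure hx⟩ * π ⟨y, Subgroup.subset_closure hy⟩ *
        (π ⟨x, Subgroup.subset_closure hx⟩ * π ⟨y, Subgroup.subset_closure hy⟩) = 1 := by
      rw [← map_mul, ← map_mul, hπ]
      exact hM2 x hx y hy
    have e1 := hgen2 x hx
    have e2 := hgen2 y hy
    generalize π ⟨x, Subgroup.subset_closure hx⟩ = a at e e1
    generalize π ⟨y, Subgroup.subset_closure hy⟩ = b at e e2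
    show a * b = b * a
    calc a * b = a * (a * b * (a * b)) * b := by rw [e, mul_one]
      _ = (a * a) * b * a * (b * b) := by group
      _ = b * a := by rw [e1, e2]; group
  have hc1 : ∀ x (hx : x ∈ V₁) m (hm : m ∈ L), Commute (π ⟨x, Subgroup.subset_closure hx⟩)
      (π ⟨m, hm⟩) := by
    intro x hx m hm
    induction hm using Subgroup.closure_induction with
    | mem y hy => exact hgenc x hx y hy
    | one => exact (map_one π ▸ Commute.one_right _ :)
    | mul y z hy hz ihy ihz =>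
      have e : π ⟨y * z, L.mul_mem hy hz⟩ = π ⟨y, hy⟩ * π ⟨z, hz⟩ := map_mul π ⟨y, hy⟩ ⟨z, hz⟩
      rw [e]; exact Commute.mul_right ihy ihz
    | inv y hy ih =>
      have e : π ⟨y⁻¹, L.inv_mem hy⟩ = (π ⟨y, hy⟩)⁻¹ := map_inv π ⟨y, hy⟩
      rw [e]; exact Commute.inv_right ih
  have hc2 : ∀ l (hl : l ∈ L) m (hm : m ∈ L), Commute (π ⟨l, hl⟩) (π ⟨m, hm⟩) := by
    intro l hl m hm
    induction hl using Subgroup.closure_induction with
    | mem y hy => exact hc1 y hy m hm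
    | one => exact (map_one π ▸ Commute.one_left _ :)
    | mul y z hy hz ihy ihz =>
      have e : π ⟨y * z, L.mul_mem hy hz⟩ = π ⟨y, hy⟩ * π ⟨z, hz⟩ := map_mul π ⟨y, hy⟩ ⟨z, hz⟩
      rw [e]; exact Commute.mul_left ihy ihz
    | inv y hy ih =>
      have e : π ⟨y⁻¹, L.inv_mem hy⟩ = (π ⟨y, hy⟩)⁻¹ := map_inv π ⟨y, hy⟩
      rw [e]; exact Commute.inv_left ih
  have hc3 : ∀ l (hl : l ∈ L), π ⟨l, hl⟩ * π ⟨l, hl⟩ = 1 := by
    intro l hl
    induction hl using Subgroup.closure_induction with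
    | mem y hy => exact hgen2 y hy
    | one => rw [← map_mul, hπ]; simp
    | mul y z hy hz ihy ihz =>
      have e : π ⟨y * z, L.mul_mem hy hz⟩ = π ⟨y, hy⟩ * π ⟨z, hz⟩ := map_mul π ⟨y, hy⟩ ⟨z, hz⟩
      rw [e, (hc2 y hy z hz).symm.mul_mul_mul_comm, ihy, ihz, mul_one]
    | inv y hy ih =>
      have e : π ⟨y⁻¹, L.inv_mem hy⟩ = (π ⟨y, hy⟩)⁻¹ := map_inv π ⟨y, hy⟩
      rw [e, ← mul_inv_rev, ih, inv_one]
  obtain ⟨ι, _, s₀, hs₀, hs₀mul⟩ := exists_support (Q := L ⧸ M.subgroupOf L)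
    (by
      intro a b
      obtain ⟨⟨l, hl⟩, rfl⟩ := QuotientGroup.mk'_surjective _ a
      obtain ⟨⟨m, hm⟩, rfl⟩ := QuotientGroup.mk'_surjective _ b
      exact hc2 l hl m hm)
    (by
      intro a
      obtain ⟨⟨l, hl⟩, rfl⟩ := QuotientGroup.mk'_surjective _ a
      exact hc3 l hl)
  let s : G → Finset ι := fun x => if hx : x ∈ L then s₀ (π ⟨x, hx⟩) else ∅
  have hs : ∀ x (hx : x ∈ L), s x = s₀ (π ⟨x, hx⟩) := fun x hx => dif_pos hx
  have hL : (L : Set G) ∈ N := mem_of_superset hV₁ Subgroup.subset_closure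
  refine res_of_support hN L hL s ?_ ?_
  · intro x hx y hy
    rw [hs x hx, hs y hy, hs _ (L.mul_mem hx hy), ← hs₀mul, ← map_mul]
    rfl
  · intro W hW hcount
    have hcount' : (s '' (W ∩ L)).Countable := hcount.mono (image_mono inter_subset_left)
    choose! r hr1 hr2 using fun t (ht : t ∈ s '' (W ∩ L)) => ht
    have hsub : W ∩ L ⊆ image2 (· * ·) (r '' (s '' (W ∩ L))) (M : Set G) := by
      intro x hx
      have ht : s x ∈ s '' (W ∩ L) := mem_image_of_mem s hx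
      refine ⟨r (s x), mem_image_of_mem r ht, (r (s x))⁻¹ * x, ?_, by simp⟩
      have e := hr2 _ ht
      rw [hs _ (hr1 _ ht).2] at e
      conv_rhs at e => rw [hs _ hx.2]
      have e' := hs₀ e
      have e'' : π (⟨r (s x), (hr1 _ ht).2⟩⁻¹ * ⟨x, hx.2⟩) = 1 := by
        rw [map_mul, map_inv, e', inv_mul_cancel]
      exact (hπ _).mp e''
    have h2 : #(W ∩ L : Set G) ≤ c := by
      refine (mk_le_mk_of_subset hsub).trans (mk_image2_le.trans ?_)
      have h3 : #(r '' (s '' (W ∩ L))) ≤ c :=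
        (le_aleph0_iff_set_countable.mpr (hcount'.image r)).trans (le_max_left _ _)
      exact (mul_le_mul' h3 hM1).trans (mul_eq_self (le_max_left _ _)).le
    exact absurd ((hbig _ (inter_mem hW hL)).trans h2) (not_le.mpr hcG)

/-- A topological group of uncountable size, all of whose neighbourhoods have full size,
is resolvable. -/
theorem res_of_uncountable [TopologicalSpace G] [IsTopologicalGroup G] (hG : ℵ₀ < #G)
    (hV : ∀ V ∈ nhds (1 : G), #G ≤ #V) : Res (nhds (1 : G)) := by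
  classical
  by_contra hn
  apply hn
  let N : Filter G := nhds 1 ⊓ ⨅ F : Finset G, principal {y | ∀ h ∈ F, y * h = h * y}
  have hb : (⨅ F : Finset G, principal {y : G | ∀ h ∈ F, y * h = h * y}).HasBasis (fun _ => True)
      (fun F : Finset G => {y : G | ∀ h ∈ F, y * h = h * y}) := by
    apply hasBasis_iInf_principal
    intro a b
    exact ⟨a ∪ b, fun y hy h hh => hy h (Finset.mem_union_left _ hh),
      fun y hy h hh => hy h (Finset.mem_union_right _ hh)⟩
  have hmem : ∀ S ∈ N, ∃ V ∈ nhds (1 : G), ∃ F : Finset G,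
      V ∩ {y : G | ∀ h ∈ F, y * h = h * y} ⊆ S := by
    intro S hS
    obtain ⟨V, hV, B, hB, rfl⟩ := mem_inf_iff.mp hS
    obtain ⟨F, -, hF⟩ := hb.mem_iff.mp hB
    exact ⟨V, hV, F, inter_subset_inter_right _ hF⟩
  have hmem' : ∀ V ∈ nhds (1 : G), ∀ F : Finset G,
      V ∩ {y : G | ∀ h ∈ F, y * h = h * y} ∈ N := fun V hV F =>
    inter_mem_inf hV (mem_iInf_of_mem F (mem_principal_self _))
  have hN : GF N := by
    refine ⟨fun S hS => ?_, fun S hS => ?_, fun S hS => ?_⟩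
    · obtain ⟨V, hV, F, hsub⟩ := hmem S hS
      exact hsub ⟨mem_of_mem_nhds hV, by simp⟩
    · obtain ⟨V, hV, F, hsub⟩ := hmem S hS
      obtain ⟨W, hW, hWV⟩ := gf_nhds.mul V hV
      refine ⟨_, hmem' W hW F, fun x hx y hy => hsub ⟨hWV x hx.1 y hy.1, fun h hh => ?_⟩⟩
      rw [mul_assoc, hy.2 h hh, ← mul_assoc, hx.2 h hh, mul_assoc]
    · obtain ⟨V, hV, F, hsub⟩ := hmem S hS
      refine mem_of_superset (hmem' _ (gf_nhds.inv V hV) F) fun x hx => hsub ⟨hx.1, fun h hh => ?_⟩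
      have := hx.2 h hh
      calc x⁻¹ * h = x⁻¹ * (h * x) * x⁻¹ := by group
        _ = x⁻¹ * (x * h) * x⁻¹ := by rw [this]
        _ = h * x⁻¹ := by group
  have hbig : ∀ W ∈ N, #G ≤ #W := by
    intro S hS
    obtain ⟨V, hVn, F, hsub⟩ := hmem S hS
    exact (centralizer_big hG hV hn F V hVn).trans (mk_le_mk_of_subset hsub)
  refine Res.mono (N' := N) inf_le_left ?_
  by_cases hsq : ∀ V ∈ N, #G ≤ #((fun y => y * y) '' V)
  · refine res_of_squares hG hN (fun h => ?_) hsq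
    refine mem_of_superset (hmem' univ univ_mem {h}) fun y hy => hy.2 h (by simp)
  · push Not at hsq
    obtain ⟨V, hVN, hlt⟩ := hsq
    exact res_of_few_squares hG hN hbig V hVN hlt

end Pool.Agent.Lib.MP_37ca1f_al
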