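import Mathlib
import Pool.Agent.Lib.MP_37ca1f_al.Uncountable
import Pool.Agent.Lib.MP_37ca1f_al.Countable

set_option autoImplicit false

namespace Pool.Agent.Lib.MP_37ca1f_al

open Filter Set Cardinal Topology

variable {G : Type} [Group G]

lemma exists_small_subgroup (V : Set G) (hV : ℵ₀ ≤ #V) :
    ∃ H : Subgroup G, V ⊆ H ∧ #H ≤ #V := by
  obtain ⟨x, hx⟩ : V.Nonempty := by
    rw [← Set.nonempty_coe_sort, ← mk_ne_zero_iff]
    exact (aleph0_pos.trans_le hV).ne'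
  classical
  let T : Finset G → Set G := fun s =>
    image2 (· * ·) (s : Set G) s ∪ (fun x => x⁻¹) '' (s : Set G)
  have hT : ∀ s, #(T s) ≤ #V := by
    intro s
    refine le_trans (le_of_lt ?_) hV
    rw [lt_aleph0_iff_set_finite]
    exact (Finite.image2 _ s.finite_toSet s.finite_toSet).union (s.finite_toSet.image _)
  obtain ⟨K, hK1, hK2, hK3⟩ := exists_small_closed T _ hV hT V le_rfl
  have hmul : ∀ a ∈ K, ∀ b ∈ K, a * b ∈ K := by
    intro a ha b hb
    refine hK3 {a, b} ?_ (Or.inl ⟨a, by simp, b, by simp, rfl⟩)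
    simp [insert_subset_iff, ha, hb]
  have hinv : ∀ a ∈ K, a⁻¹ ∈ K := by
    intro a ha
    refine hK3 {a} ?_ (Or.inr ⟨a, by simp, rfl⟩)
    simpa using ha
  exact ⟨{ carrier := K
           one_mem' := by simpa using hmul x (hK1 hx) _ (hinv x (hK1 hx))
           mul_mem' := fun ha hb => hmul _ ha _ hb
           inv_mem' := fun ha => hinv _ ha }, hK1, hK2⟩

variable [TopologicalSpace G] [IsTopologicalGroup G]

omit [IsTopologicalGroup G] in
lemma res_of_subgroup (H : Subgroup G) (h : Res (𝓝 (1 : H))) : Res (𝓝 (1 : G)) := by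
  apply ResOn.res (H := H)
  obtain ⟨A, hA⟩ := h
  have hle : map ((↑) : H → G) (𝓝 1) ≤ 𝓝 1 := continuous_subtype_val.tendsto (1 : H)
  refine ⟨((↑) : H → G) '' A, fun g hg => ⟨?_, ?_⟩⟩
  · refine Frequently.filter_mono ?_ hle
    rw [frequently_map]
    exact (hA ⟨g, hg⟩).1.mono fun y hy => ⟨y.2, _, hy, rfl⟩
  · refine Frequently.filter_mono ?_ hle
    rw [frequently_map]
    refine (hA ⟨g, hg⟩).2.mono fun y hy => ⟨y.2, ?_⟩
    rintro ⟨z, hz, e⟩
    apply hy
    have : z = ⟨g, hg⟩ * y := Subtype.ext e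
    exact this ▸ hz

lemma res_of_not_separated {x : G} (hx : x ≠ 1) (h : ∀ V ∈ 𝓝 (1 : G), x ∈ V) :
    Res (𝓝 (1 : G)) := by
  let H : Subgroup G :=
    { carrier := {x | ∀ V ∈ 𝓝 (1 : G), x ∈ V}
      one_mem' := fun V hV => mem_of_mem_nhds hV
      mul_mem' := fun ha hb V hV => by
        obtain ⟨W, hW, hWV⟩ := gf_nhds.mul V hV
        exact hWV _ (ha W hW) _ (hb W hW)
      inv_mem' := fun ha V hV => ha _ (gf_nhds.inv V hV) }
  apply ResOn.res (H := H)
  refine ⟨{1}, fun g hg => ⟨?_, ?_⟩⟩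
  · rw [frequently_iff]
    intro V hV
    exact ⟨g⁻¹, H.inv_mem hg V hV, H.inv_mem hg, by simp⟩
  · rw [frequently_iff]
    intro V hV
    by_cases hg1 : g = 1
    · exact ⟨x, h V hV, h, by simpa [hg1] using hx⟩
    · exact ⟨1, mem_of_mem_nhds hV, H.one_mem, by simpa using hg1⟩

lemma clopen_of_countable [Countable G] :
    ∀ V ∈ 𝓝 (1 : G), ∃ X, IsClopen X ∧ (1 : G) ∈ X ∧ X ⊆ V := by
  intro V hV
  have : CompletelyRegularSpace G :=
    @UniformSpace.toCompletelyRegularSpace G (IsTopologicalGroup.rightUniformSpace G)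
  have hb := CompletelyRegularSpace.isTopologicalBasis_clopens_of_cardinalMk_lt_continuum (X := G)
    (mk_le_aleph0.trans_lt aleph0_lt_continuum)
  obtain ⟨X, hX, h1, h2⟩ := hb.mem_nhds_iff.mp hV
  exact ⟨X, hX, h1, h2⟩

omit [IsTopologicalGroup G] in
/-- An open subgroup whose size is the least size of a neighbourhood of the identity. -/
lemma exists_open_subgroup (hinf : ∀ V ∈ 𝓝 (1 : G), ℵ₀ ≤ #V) :
    ∃ H : Subgroup G, (H : Set G) ∈ 𝓝 (1 : G) ∧ (∃ V ∈ 𝓝 (1 : G), #V ≤ #H) ∧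
      ∀ V ∈ 𝓝 (1 : H), #H ≤ #V := by
  obtain ⟨_, ⟨V₀, hV₀, rfl⟩, hmin⟩ := wellFounded_lt.has_min
    ((fun V : Set G => #V) '' {V | V ∈ 𝓝 (1 : G)}) ⟨_, univ, univ_mem, rfl⟩
  obtain ⟨H, hH1, hH2⟩ := exists_small_subgroup V₀ (hinf V₀ hV₀)
  have hH : (H : Set G) ∈ 𝓝 (1 : G) := mem_of_superset hV₀ hH1
  refine ⟨H, hH, ⟨H, hH, le_rfl⟩, fun V hV => ?_⟩
  have hV' : ((↑) : H → G) '' V ∈ 𝓝 (1 : G) := by
    rw [nhds_subtype] at hV
    exact image_coe_mem_of_mem_comap hH hV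
  exact hH2.trans ((not_lt.mp (hmin _ ⟨_, hV', rfl⟩)).trans mk_image_le)

/-- Every topological group without countable neighbourhoods is resolvable. -/
theorem res_of_uncountable_nhds (h : ∀ V ∈ 𝓝 (1 : G), ¬ V.Countable) : Res (𝓝 (1 : G)) := by
  have hlt : ∀ V ∈ 𝓝 (1 : G), ℵ₀ < #V := fun V hV =>
    not_le.mp fun hle => h V hV (le_aleph0_iff_set_countable.mp hle)
  obtain ⟨H, hH, -, hmin⟩ := exists_open_subgroup fun V hV => (hlt V hV).le
  exact res_of_subgroup H (res_of_uncountable (hlt _ hH) hmin)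

theorem res_main
    (hS : Set.Infinite {p : Ultrafilter G | (p : Filter G) ≤ cofinite ∧ (p : Filter G) ≤ 𝓝 1}) :
    Res (𝓝 (1 : G)) := by
  by_cases hunc : ∀ V ∈ 𝓝 (1 : G), ¬ V.Countable
  · exact res_of_uncountable_nhds hunc
  by_cases hsep : ∀ x : G, x ≠ 1 → ∃ V ∈ 𝓝 (1 : G), x ∉ V
  swap
  · push Not at hsep
    obtain ⟨x, hx, h⟩ := hsep
    exact res_of_not_separated hx h
  push Not at hunc
  obtain ⟨V, hV, hVc⟩ := hunc
  obtain ⟨p₀, hp₀⟩ := hS.nonempty
  have hinf : ℵ₀ ≤ #V := by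
    rw [aleph0_le_mk_iff, infinite_coe_iff]
    intro hfin
    exact Ultrafilter.compl_notMem_iff.mpr (hp₀.2 hV) (hp₀.1 hfin.compl_mem_cofinite)
  obtain ⟨H, hH1, hH2⟩ := exists_small_subgroup V hinf
  have hH : (H : Set G) ∈ 𝓝 (1 : G) := mem_of_superset hV hH1
  have : Countable H := mk_le_aleph0_iff.mp (hH2.trans (le_aleph0_iff_set_countable.mpr hVc))
  apply res_of_subgroup H
  apply res_of_countable clopen_of_countable
  · intro x hx
    obtain ⟨U, hU, hxU⟩ := hsep x (fun e => hx (Subtype.ext e))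
    exact ⟨((↑) : H → G) ⁻¹' U, continuous_subtype_val.continuousAt.preimage_mem_nhds hU, hxU⟩
  · apply Set.Infinite.of_image (Ultrafilter.map ((↑) : H → G))
    refine hS.mono ?_
    rintro p ⟨hp1, hp2⟩
    have hr : range ((↑) : H → G) ∈ p := by
      rw [Subtype.range_coe]
      exact hp2 hH
    refine ⟨p.comap Subtype.val_injective hr, ⟨?_, ?_⟩, ?_⟩
    · rw [Ultrafilter.coe_comap]
      exact (comap_mono hp1).trans (Subtype.val_injective.comap_cofinite_eq).le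
    · rw [Ultrafilter.coe_comap, nhds_subtype]
      exact comap_mono hp2
    · apply Ultrafilter.coe_injective
      show Filter.map _ (Filter.comap _ _) = _
      exact map_comap_of_mem hr

end Pool.Agent.Lib.MP_37ca1f_al
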